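import Pool.Agent.NH56.HY.Def

/-!
# There are no everywhere unramified additive characters: statements of the parts

Let `K` be a number field. A continuous additive character, with values in `ℚ_ℓ`, of an open subgroup of
the Galois group which is trivial on open subgroups of the inertia groups above `ℓ` is zero. The proof
uses the inequality `[L : F] ≤ h_F` for everywhere unramified cyclic extensions `L / F` (ambiguous ideal
classes, Herbrand quotient of the group of units).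
-/

set_option autoImplicit false

namespace Pool.Agent.NH56.HU

open NumberField IsDedekindDomain Pool.Agent.NH56.HY

/-- the map `a ↦ s a / a` -/
def dl {A : Type} [CommGroup A] (s : A →* A) : A →* A where
  toFun a := s a / a
  map_one' := by simp
  map_mul' a b := by rw [map_mul, mul_div_mul_comm]

theorem iter_mul {A : Type} [CommGroup A] (s : A →* A) (i : ℕ) (a b : A) :
    (s^[i]) (a * b) = (s^[i]) a * (s^[i]) b := by
  induction i with
  | zero => rfl
  | succ i ih => rw [Function.iterate_succ_apply', ih, map_mul, Function.iterate_succ_apply',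
      Function.iterate_succ_apply']

/-- the norm `a ↦ a * s a * ... * s ^ (n - 1) a` -/
def nm {A : Type} [CommGroup A] (s : A →* A) (n : ℕ) : A →* A where
  toFun a := ∏ i ∈ Finset.range n, (s^[i]) a
  map_one' := by
    refine Finset.prod_eq_one fun i _ => ?_
    exact Function.iterate_fixed (map_one s) i
  map_mul' a b := by
    rw [← Finset.prod_mul_distrib]
    exact Finset.prod_congr rfl fun i _ => iter_mul s i a b

/-- **HER**: Herbrand's lemma -/
def S_HER : Prop := ∀ (A : Type) [CommGroup A] (f g : A →* A), (∀ a, f (g a) = 1) →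
  (∀ a, g (f a) = 1) → ∀ B : Subgroup A, B.index ≠ 0 → (∀ b ∈ B, f b ∈ B) → (∀ b ∈ B, g b ∈ B) →
  f.range.relIndex g.ker * (B.map g).relIndex (f.ker ⊓ B) =
    g.range.relIndex f.ker * (B.map f).relIndex (g.ker ⊓ B)

/-- **LAT**: the lower bound for the first cohomology group. `s ^ n = 1`; the elements `s ^ i (u j)`,
`i < n`, generate a subgroup of finite index, and their relations are the multiples of one relation,
with exponents `c j` which do not depend on `i`. -/
def S_LAT : Prop := ∀ (A : Type) [CommGroup A] (s : A →* A) (n : ℕ), 0 < n →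
  (∀ a, (s^[n]) a = a) → (nm s n).range.relIndex (dl s).ker ≠ 0 →
  ∀ (r : ℕ) (u : Fin r → A) (c : Fin r → ℤ), c ≠ 0 →
  (∀ a : Fin r → Fin n → ℤ, ∏ j, ∏ i : Fin n, ((s^[(i : ℕ)]) (u j)) ^ a j i = 1 ↔
    ∃ k : ℤ, ∀ j i, a j i = k * c j) →
  (Subgroup.closure {x | ∃ (j : Fin r) (i : Fin n), x = (s^[(i : ℕ)]) (u j)}).index ≠ 0 →
  n ≤ (dl s).range.relIndex (nm s n).ker ∨ (dl s).range.relIndex (nm s n).ker = 0

/-- **POS**: relations between the rows of a matrix with negative entries outside of the diagonal and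
row sums zero -/
def S_POS : Prop := ∀ (W : Type) [Fintype W] [DecidableEq W] (M : W → W → ℝ),
  (∀ p w, p ≠ w → M p w < 0) → (∀ p, ∑ w, M p w = 0) →
  ∀ a : W → ℝ, (∀ w, ∑ p, a p * M p w = 0) →
  (a = 0 ∨ (∀ p, 0 < a p) ∨ (∀ p, a p < 0)) ∧
    ∀ b : W → ℝ, (∀ w, ∑ p, b p * M p w = 0) → b ≠ 0 → ∃ x : ℝ, ∀ p, a p = x * b p

/-- the action of an automorphism on the units -/
noncomputable def su {F L : Type} [Field F] [Field L] [NumberField L] [Algebra F L] (σ : L ≃ₐ[F] L) :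
    (𝓞 L)ˣ →* (𝓞 L)ˣ := Units.map (RingOfIntegers.mapRingHom (σ : L →+* L) : 𝓞 L →* 𝓞 L)

/-- **UNT**: units. If the automorphism `σ` of order `n` acts freely on the infinite places, there are
units as in LAT. -/
def S_UNT : Prop := ∀ (F L : Type) [Field F] [NumberField F] [Field L] [NumberField L] [Algebra F L]
  (σ : L ≃ₐ[F] L) (n : ℕ), 0 < n → σ ^ n = 1 →
  (∀ (w : InfinitePlace L) (i : ℕ), σ ^ i • w = w → n ∣ i) →
  ∃ (r : ℕ) (u : Fin r → (𝓞 L)ˣ) (c : Fin r → ℤ), c ≠ 0 ∧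
    (∀ a : Fin r → Fin n → ℤ, ∏ j, ∏ i : Fin n, (((su σ)^[(i : ℕ)]) (u j)) ^ a j i = 1 ↔
      ∃ k : ℤ, ∀ j i, a j i = k * c j) ∧
    (Subgroup.closure {x | ∃ (j : Fin r) (i : Fin n), x = ((su σ)^[(i : ℕ)]) (u j)}).index ≠ 0 ∧
    (nm (su σ) n).range.relIndex (dl (su σ)).ker ≠ 0

/-- **IDL**: the upper bound by the class number. `σ` generates the Galois group of `L / F`, all inertia
groups are trivial. -/
def S_IDL : Prop := ∀ (F L : Type) [Field F] [NumberField F] [Field L] [NumberField L] [Algebra F L]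
  [IsGalois F L] (σ : L ≃ₐ[F] L), (∀ τ : L ≃ₐ[F] L, τ ∈ Subgroup.zpowers σ) →
  (∀ P : Ideal (𝓞 L), P.IsMaximal → ∀ τ : L ≃ₐ[F] L, (∀ x : 𝓞 L, τ • x - x ∈ P) → τ = 1) →
  (dl (su σ)).range.relIndex (nm (su σ) (Module.finrank F L)).ker ≠ 0 ∧
  (dl (su σ)).range.relIndex (nm (su σ) (Module.finrank F L)).ker ≤ classNumber F

/-- **FLV**: the degree of an everywhere unramified cyclic extension is at most the class number -/
def S_FLV : Prop := ∀ (F L : Type) [Field F] [NumberField F] [Field L] [NumberField L] [Algebra F L]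
  [IsGalois F L] (σ : L ≃ₐ[F] L), (∀ τ : L ≃ₐ[F] L, τ ∈ Subgroup.zpowers σ) →
  (∀ P : Ideal (𝓞 L), P.IsMaximal → ∀ τ : L ≃ₐ[F] L, (∀ x : 𝓞 L, τ • x - x ∈ P) → τ = 1) →
  (∀ (w : InfinitePlace L) (τ : L ≃ₐ[F] L), τ • w = w → τ = 1) →
  Module.finrank F L ≤ classNumber F

/-- **BND**: everywhere unramified cyclic characters of an open subgroup have bounded order -/
def S_BND : Prop := ∀ (K : Type) [Field K] [NumberField K] (U : Subgroup (GK K)),
  IsOpen (U : Set (GK K)) → ∃ h : ℕ, ∀ (n : ℕ) (f : U →* Multiplicative (ZMod n)), 0 < n →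
  Function.Surjective f → IsOpen (f.ker : Set U) →
  (∀ Q : Ideal (𝓞 (AlgebraicClosure K)), Q.IsMaximal → ∀ g : U, (g : GK K) ∈ inertia Q → f g = 1) →
  (∀ g : U, g * g = 1 → f g = 1) → n ≤ h

/-- **TMF**: the tame relation in a finite Galois extension -/
def S_TMF : Prop := ∀ (F L : Type) [Field F] [NumberField F] [Field L] [NumberField L] [Algebra F L]
  [IsGalois F L] (ℓ : ℕ), ℓ.Prime → IsPGroup ℓ (L ≃ₐ[F] L) →
  ∀ P : Ideal (𝓞 L), P.IsMaximal → (ℓ : 𝓞 L) ∉ P →
  ∃ q : ℕ, 2 ≤ q ∧ Nat.card (𝓞 F ⧸ P.comap (algebraMap (𝓞 F) (𝓞 L))) = q ∧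
    ∃ φ : L ≃ₐ[F] L, ∀ τ : L ≃ₐ[F] L, (∀ x : 𝓞 L, τ • x - x ∈ P) → φ * τ * φ⁻¹ = τ ^ q

/-- **TAM**: additive characters are unramified outside of `ℓ` -/
def S_TAM : Prop := ∀ (K : Type) [Field K] [NumberField K] (ℓ : ℕ) [Fact ℓ.Prime]
  (U : Subgroup (GK K)), IsOpen (U : Set (GK K)) → ∀ ψ : U → ℚ_[ℓ], Continuous ψ →
  (∀ g h, ψ (g * h) = ψ g + ψ h) →
  ∀ Q : Ideal (𝓞 (AlgebraicClosure K)), Q.IsMaximal → (ℓ : 𝓞 (AlgebraicClosure K)) ∉ Q →
    ∀ g : U, (g : GK K) ∈ inertia Q → ψ g = 0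

/-- **CFT** -/
def S_CFT : Prop := ∀ (K : Type) [Field K] [NumberField K] (ℓ : ℕ) [Fact ℓ.Prime],
  ClassFieldTheory K ℓ

end Pool.Agent.NH56.HU
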