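import Pool.Agent.NH56.HU.Stm

/-! From the absolute Galois group to finite extensions (`S_BND` from `S_FLV`). -/

set_option autoImplicit false
set_option linter.unusedSectionVars false

namespace Pool.Agent.NH56.HU

open NumberField IsDedekindDomain Pool.Agent.NH56.HY
open scoped Pointwise

namespace BndP

/-- the ring of all algebraic integers -/
abbrev OO (K : Type) [Field K] : Type := 𝓞 (AlgebraicClosure K)

variable {K : Type} [Field K] [NumberField K]

theorem coe_smul (σ : GK K) (x : OO K) : ((σ • x : OO K) : AlgebraicClosure K) = σ x := rfl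

theorem smulComm' (M : IntermediateField K (AlgebraicClosure K)) :
    SMulCommClass M.fixingSubgroup (𝓞 M) (OO K) := by
  refine ⟨fun g a b => ?_⟩
  apply RingOfIntegers.ext
  rw [Subgroup.smul_def, Subgroup.smul_def, coe_smul, Algebra.smul_def, Algebra.smul_def]
  show g.1 ((algebraMap (𝓞 M) (OO K) a : OO K) * (b : AlgebraicClosure K)) =
    (algebraMap (𝓞 M) (OO K) a : OO K) * g.1 b
  rw [map_mul]
  congr 1
  exact g.2 (a : M)

theorem isInv' (M : IntermediateField K (AlgebraicClosure K)) :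
    Algebra.IsInvariant (𝓞 M) (OO K) M.fixingSubgroup := by
  refine ⟨fun b hb => ?_⟩
  have h1 : (b : AlgebraicClosure K) ∈ M := by
    rw [← InfiniteGalois.fixedField_fixingSubgroup M]
    intro g
    exact congrArg (fun z : OO K => (z : AlgebraicClosure K)) (hb g)
  refine ⟨⟨⟨b, h1⟩, ?_⟩, ?_⟩
  · have h3 : IsIntegral ℤ (algebraMap M (AlgebraicClosure K) ⟨b, h1⟩) := b.2
    exact (isIntegral_algebraMap_iff (algebraMap M (AlgebraicClosure K)).injective).1 h3
  · apply RingOfIntegers.ext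
    rfl

/-- lifting to inertia groups -/
theorem inr_lift (M : IntermediateField K (AlgebraicClosure K)) {Q : Ideal (OO K)}
    (hQ : Q.IsMaximal) (g0 : GK K)
    (h1 : ∀ a : 𝓞 M, ∃ b : 𝓞 M, g0 • algebraMap (𝓞 M) (OO K) a = algebraMap (𝓞 M) (OO K) b)
    (h2 : ∀ a : 𝓞 M, ∃ b : 𝓞 M, g0 • algebraMap (𝓞 M) (OO K) b = algebraMap (𝓞 M) (OO K) a)
    (h3 : ∀ a : 𝓞 M, g0 • algebraMap (𝓞 M) (OO K) a - algebraMap (𝓞 M) (OO K) a ∈ Q) :
    ∃ m ∈ M.fixingSubgroup, m * g0 ∈ inertia Q := by
  have hclosed : IsClosed (M.fixingSubgroup : Set (GK K)) :=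
    InfiniteGalois.fixingSubgroup_isClosed M
  have hcomm : SMulCommClass M.fixingSubgroup (𝓞 M) (OO K) := smulComm' M
  have hinv : Algebra.IsInvariant (𝓞 M) (OO K) M.fixingSubgroup := isInv' M
  have hcpt : CompactSpace M.fixingSubgroup := isCompact_iff_compactSpace.1 hclosed.isCompact
  let _ : TopologicalSpace (OO K) := ⊥
  have : DiscreteTopology (OO K) := ⟨rfl⟩
  have hcont : ContinuousSMul (GK K) (OO K) := by
    rw [continuousSMul_iff_stabilizer_isOpen]
    intro x
    have h1 := stabilizer_isOpen_of_isIntegral (K := K) (x : AlgebraicClosure K)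
    convert h1 using 2
    ext g
    rw [MulAction.mem_stabilizer_iff, MulAction.mem_stabilizer_iff]
    constructor
    · intro h
      exact congrArg (fun z : OO K => (z : AlgebraicClosure K)) h
    · intro h
      exact RingOfIntegers.ext h
  have hcontU : ContinuousSMul M.fixingSubgroup (OO K) := inferInstance
  have hQ' : (g0 • Q).IsPrime := inferInstance
  have hunder : (g0 • Q).under (𝓞 M) = Q.under (𝓞 M) := by
    ext a
    obtain ⟨b, hb⟩ := h2 a
    have h4 := h3 b
    rw [Ideal.under_def, Ideal.mem_comap, Ideal.under_def, Ideal.mem_comap, ← hb,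
      Ideal.smul_mem_pointwise_smul_iff]
    constructor
    · intro h5
      have := Q.add_mem h4 h5
      rwa [sub_add_cancel] at this
    · intro h5
      have := Q.sub_mem h5 h4
      rwa [sub_sub_cancel] at this
  obtain ⟨h, hh⟩ := Algebra.IsInvariant.exists_smul_of_under_eq_of_profinite
    (A := 𝓞 M) (G := M.fixingSubgroup) (g0 • Q) Q hunder
  set g1 : GK K := h.1 * g0 with hg1
  have hg1Q : g1 • Q = Q := by
    rw [hg1, mul_smul]
    exact hh.symm
  set P : Ideal (𝓞 M) := Q.under (𝓞 M) with hP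
  have hmap : Q = Q.map (MulSemiringAction.toRingEquiv (GK K) (OO K) g1 : OO K →+* OO K) := by
    conv_lhs => rw [← hg1Q]
    rw [Ideal.pointwise_smul_def]
    rfl
  have hres1 : ∀ a : 𝓞 M, g1 • (algebraMap (𝓞 M) (OO K) a) =
      g0 • (algebraMap (𝓞 M) (OO K) a) := by
    intro a
    rw [hg1, mul_smul]
    obtain ⟨b, hb⟩ := h1 a
    rw [hb]
    apply RingOfIntegers.ext
    rw [coe_smul]
    exact h.2 (b : M)
  let σ : (OO K ⧸ Q) ≃ₐ[𝓞 M ⧸ P] (OO K ⧸ Q) :=
    AlgEquiv.ofRingEquiv (f := Ideal.quotientEquiv Q Q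
      (MulSemiringAction.toRingEquiv (GK K) (OO K) g1) hmap) (by
      intro a
      obtain ⟨a, rfl⟩ := Ideal.Quotient.mk_surjective a
      show Ideal.Quotient.mk Q (g1 • algebraMap (𝓞 M) (OO K) a) =
        Ideal.Quotient.mk Q (algebraMap (𝓞 M) (OO K) a)
      rw [Ideal.Quotient.mk_eq_mk_iff_sub_mem, hres1]
      exact h3 a)
  obtain ⟨k, hk⟩ := Ideal.Quotient.stabilizerHom_surjective_of_profinite
    (G := M.fixingSubgroup) P Q σ
  have hk' : ∀ x : OO K, g1 • x - k.1.1 • x ∈ Q := by
    intro x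
    have h1 := DFunLike.congr_fun hk (Ideal.Quotient.mk Q x)
    rw [Ideal.Quotient.stabilizerHom_apply] at h1
    rw [← Ideal.Quotient.mk_eq_mk_iff_sub_mem]
    exact h1.symm
  obtain ⟨k1, hkU, hkQ, hk'⟩ : ∃ k1 : GK K, k1 ∈ M.fixingSubgroup ∧ k1 • Q = Q ∧
      ∀ x : OO K, g1 • x - k1 • x ∈ Q := ⟨k.1.1, k.1.2, k.2, hk'⟩
  refine ⟨k1⁻¹ * h.1, M.fixingSubgroup.mul_mem (M.fixingSubgroup.inv_mem hkU) h.2, fun x => ?_⟩
  rw [mul_assoc, ← hg1]
  have h1 := hk' x
  rw [← hkQ, Ideal.mem_pointwise_smul_iff_inv_smul_mem, smul_sub, inv_smul_smul,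
    ← mul_smul] at h1
  exact h1

section

variable (F M : IntermediateField K (AlgebraicClosure K))

theorem stable {n : ℕ} (hFM : F ≤ M) (f : F.fixingSubgroup →* Multiplicative (ZMod n))
    (hker : ∀ g : F.fixingSubgroup, f g = 1 ↔ g.1 ∈ M.fixingSubgroup) (g : F.fixingSubgroup)
    {x : AlgebraicClosure K} (hx : x ∈ M) : g.1 x ∈ M := by
  rw [← InfiniteGalois.fixedField_fixingSubgroup M]
  intro m
  have hmF : m.1 ∈ F.fixingSubgroup := fun y => m.2 ⟨y.1, hFM y.2⟩
  have h1 : f (g⁻¹ * ⟨m.1, hmF⟩ * g) = 1 := by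
    have h2 : f ⟨m.1, hmF⟩ = 1 := (hker _).2 m.2
    rw [map_mul, map_mul, h2, mul_one, map_inv, inv_mul_cancel]
  rw [hker] at h1
  have h3 := h1 ⟨x, hx⟩
  have h4 : (g.1⁻¹ * m.1 * g.1) x = x := h3
  have h5 : m.1 (g.1 x) = g.1 x := by
    have h6 := congrArg (fun z => g.1 z) h4
    have h7 : g.1 ((g.1⁻¹ * m.1 * g.1) x) = (g.1 * (g.1⁻¹ * m.1 * g.1)) x := rfl
    have h8 : g.1 * (g.1⁻¹ * m.1 * g.1) = m.1 * g.1 := by group
    rw [h8] at h7
    exact h7.symm.trans h6
  exact h5

/-- an automorphism of the algebraic closure given by complex conjugation -/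
theorem exists_conj (Φ : AlgebraicClosure K →+* ℂ)
    (hK : ∀ x : K, starRingEnd ℂ (Φ (algebraMap K _ x)) = Φ (algebraMap K _ x)) :
    ∃ c : GK K, ∀ y, Φ (c y) = starRingEnd ℂ (Φ y) := by
  letI : Algebra (AlgebraicClosure K) ℂ := Φ.toAlgebra
  letI : Algebra K ℂ := (Φ.comp (algebraMap K (AlgebraicClosure K))).toAlgebra
  haveI : IsScalarTower K (AlgebraicClosure K) ℂ := IsScalarTower.of_algebraMap_eq fun x => rfl
  let χ : ℂ ≃ₐ[K] ℂ := AlgEquiv.ofRingEquiv (f := starRingAut (R := ℂ)) (fun x => hK x)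
  refine ⟨χ.restrictNormal (AlgebraicClosure K), fun y => ?_⟩
  exact AlgEquiv.restrictNormal_commutes χ (AlgebraicClosure K) y

theorem core (hFLV : S_FLV) [NumberField F] [NumberField M] [FiniteDimensional K F]
    [FiniteDimensional K M] (hFM : F ≤ M) (n : ℕ) (hn : 0 < n)
    (f : F.fixingSubgroup →* Multiplicative (ZMod n)) (hsurj : Function.Surjective f)
    (hker : ∀ g : F.fixingSubgroup, f g = 1 ↔ g.1 ∈ M.fixingSubgroup)
    (hin : ∀ Q : Ideal (OO K), Q.IsMaximal → ∀ g : F.fixingSubgroup,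
      (g : GK K) ∈ inertia Q → f g = 1)
    (hinv : ∀ g : F.fixingSubgroup, g * g = 1 → f g = 1) : n ≤ classNumber F := by
  letI : Algebra F M := (IntermediateField.inclusion hFM).toRingHom.toAlgebra
  have hFMc : ∀ x : F, ((algebraMap F M x : M) : AlgebraicClosure K) = x := fun x => rfl
  haveI : IsScalarTower K F M := IsScalarTower.of_algebraMap_eq fun x => rfl
  haveI : FiniteDimensional F M := FiniteDimensional.right K F M
  -- restriction to `M`
  have hres : ∀ g : F.fixingSubgroup, ∃ τ : M ≃ₐ[F] M, ∀ x : M,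
      ((τ x : M) : AlgebraicClosure K) = g.1 x := by
    intro g
    refine ⟨{ toFun := fun x => ⟨g.1 x, stable F M hFM f hker g x.2⟩
              invFun := fun x => ⟨(g⁻¹).1 x, stable F M hFM f hker g⁻¹ x.2⟩
              left_inv := fun x => Subtype.ext ?_
              right_inv := fun x => Subtype.ext ?_
              map_mul' := fun x y => Subtype.ext ?_
              map_add' := fun x y => Subtype.ext ?_
              commutes' := fun x => Subtype.ext ?_ }, fun x => rfl⟩
    · show (g.1⁻¹) (g.1 x) = x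
      exact g.1.symm_apply_apply x
    · show g.1 ((g.1⁻¹) x) = x
      exact g.1.apply_symm_apply x
    · show g.1 ((x * y : M) : AlgebraicClosure K) = g.1 x * g.1 y
      rw [MulMemClass.coe_mul, map_mul]
    · show g.1 ((x + y : M) : AlgebraicClosure K) = g.1 x + g.1 y
      rw [AddMemClass.coe_add, map_add]
    · show g.1 ((algebraMap F M x : M) : AlgebraicClosure K) = _
      exact g.2 x
  -- lifting
  have hlift : ∀ τ : M ≃ₐ[F] M, ∃ g : F.fixingSubgroup, ∀ x : M,
      g.1 (x : AlgebraicClosure K) = (τ x : M) := by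
    intro τ
    have h1 : ∀ x : M, (τ.restrictScalars K).liftNormal (AlgebraicClosure K)
        (x : AlgebraicClosure K) = (τ x : M) := fun x =>
      AlgEquiv.liftNormal_commutes (τ.restrictScalars K) (AlgebraicClosure K) x
    refine ⟨⟨(τ.restrictScalars K).liftNormal (AlgebraicClosure K), fun x => ?_⟩, h1⟩
    have h2 := h1 (algebraMap F M x)
    rw [τ.commutes] at h2
    exact h2
  -- automorphisms of `M` fixing `M`
  have hfixM : ∀ (g : F.fixingSubgroup) (τ : M ≃ₐ[F] M), (∀ x : M,
      ((τ x : M) : AlgebraicClosure K) = g.1 x) → (f g = 1 ↔ τ = 1) := by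
    intro g τ h
    rw [hker]
    constructor
    · intro h1
      ext x
      rw [h x]
      exact h1 x
    · intro h1 x
      have h2 := h x
      rw [h1] at h2
      exact h2.symm
  haveI : IsGalois F M := by
    refine IsGalois.of_fixedField_eq_bot F M ?_
    rw [eq_bot_iff]
    intro x hx
    have h1 : (x : AlgebraicClosure K) ∈ F := by
      rw [← InfiniteGalois.fixedField_fixingSubgroup F]
      intro g
      obtain ⟨τ, hτ⟩ := hres g
      have h2 : τ x = x := hx ⟨τ, trivial⟩
      have h3 := hτ x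
      rw [h2] at h3
      exact h3.symm
    rw [IntermediateField.mem_bot]
    exact ⟨⟨x, h1⟩, Subtype.ext rfl⟩
  haveI : NeZero n := ⟨hn.ne'⟩
  obtain ⟨g0, hg0⟩ := hsurj (Multiplicative.ofAdd (1 : ZMod n))
  obtain ⟨σ, hσ⟩ := hres g0
  have hσk : ∀ (k : ℕ) (x : M), (((σ ^ k) x : M) : AlgebraicClosure K) = (g0 ^ k).1 x := by
    intro k
    induction k with
    | zero => intro x; rfl
    | succ k ih =>
      intro x
      rw [pow_succ', AlgEquiv.mul_apply, hσ, ih, pow_succ']
      rfl
  have hf0 : ∀ k : ℕ, f (g0 ^ k) = Multiplicative.ofAdd (k : ZMod n) := by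
    intro k
    rw [map_pow, hg0, ← ofAdd_nsmul, nsmul_eq_mul, mul_one]
  have hgen : ∀ τ : M ≃ₐ[F] M, τ ∈ Subgroup.zpowers σ := by
    intro τ
    obtain ⟨g, hg⟩ := hlift τ
    set k : ℕ := (Multiplicative.toAdd (f g)).val with hk
    have h1 : f (g0 ^ k) = f g := by
      rw [hf0, hk, ZMod.natCast_zmod_val]
      rfl
    have h2 : f ((g0 ^ k)⁻¹ * g) = 1 := by
      rw [map_mul, map_inv, h1, inv_mul_cancel]
    rw [hker] at h2
    have h3 : σ ^ k = τ := by
      ext x
      rw [hσk, ← hg]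
      have h4 : ((g0 ^ k)⁻¹ * g).1 x = x := h2 x
      have h5 := congrArg (fun z => (g0 ^ k).1 z) h4
      have h6 : (g0 ^ k).1 (((g0 ^ k)⁻¹ * g).1 x) = ((g0 ^ k) * ((g0 ^ k)⁻¹ * g)).1 x := rfl
      rw [mul_inv_cancel_left] at h6
      exact h5.symm.trans h6
    rw [← h3]
    exact Subgroup.npow_mem_zpowers σ k
  have hfl := hFLV F M σ hgen ?_ ?_
  · -- conclusion
    have h1 : σ ^ (Module.finrank F M) = 1 := by
      rw [← IsGalois.card_aut_eq_finrank F M]
      exact pow_card_eq_one'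
    have h2 := (hfixM (g0 ^ (Module.finrank F M)) (σ ^ (Module.finrank F M))
      (hσk _)).2 h1
    rw [hf0, ofAdd_eq_one, ZMod.natCast_eq_zero_iff] at h2
    exact (Nat.le_of_dvd Module.finrank_pos h2).trans hfl
  · -- inertia groups
    intro P hP τ hτ
    obtain ⟨Q, hQm, hQP⟩ := Ideal.exists_maximal_ideal_liesOver_of_isIntegral (S := OO K) P
    obtain ⟨g, hg⟩ := hlift τ
    have hact : ∀ a : 𝓞 M, g.1 • algebraMap (𝓞 M) (OO K) a =
        algebraMap (𝓞 M) (OO K) (τ • a) := by
      intro a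
      apply RingOfIntegers.ext
      rw [coe_smul]
      exact hg (a : M)
    have hmemP : ∀ a : 𝓞 M, algebraMap (𝓞 M) (OO K) a ∈ Q ↔ a ∈ P := by
      intro a
      rw [hQP.over]
      rfl
    obtain ⟨m, hm, hmg⟩ := inr_lift M hQm g.1 (fun a => ⟨τ • a, hact a⟩)
      (fun a => ⟨τ⁻¹ • a, by rw [hact, smul_inv_smul]⟩)
      (fun a => by
        rw [hact, ← map_sub, hmemP]
        exact hτ a)
    have hmF : m ∈ F.fixingSubgroup := fun y => hm ⟨y.1, hFM y.2⟩
    have h1 := hin Q hQm (⟨m, hmF⟩ * g) hmg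
    have h2 : f ⟨m, hmF⟩ = 1 := (hker _).2 hm
    rw [map_mul, h2, one_mul] at h1
    exact (hfixM g τ fun x => (hg x).symm).1 h1
  · -- infinite places
    intro w τ hw
    rw [← InfinitePlace.mk_embedding w, InfinitePlace.smul_mk, InfinitePlace.mk_eq_iff] at hw
    set φ : M →+* ℂ := w.embedding with hφ
    rcases hw with h | h
    · have h1 : ∀ x : M, τ.symm x = x := by
        intro x
        exact φ.injective (DFunLike.congr_fun h x)
      ext x
      have h2 := h1 (τ x)
      rw [AlgEquiv.symm_apply_apply] at h2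
      rw [← h2]
      rfl
    · have h1 : ∀ x : M, starRingEnd ℂ (φ (τ.symm x)) = φ x := fun x => DFunLike.congr_fun h x
      have h1' : ∀ x : M, starRingEnd ℂ (φ x) = φ (τ.symm x) := by
        intro x
        rw [← h1 x, Complex.conj_conj]
      obtain ⟨Φ, hΦ⟩ : ∃ Φ : AlgebraicClosure K →+* ℂ, ∀ x : M, Φ x = φ x := by
        letI : Algebra M ℂ := φ.toAlgebra
        let Φ : AlgebraicClosure K →ₐ[M] ℂ := IsAlgClosed.lift
        exact ⟨Φ.toRingHom, fun x => Φ.commutes x⟩
      have hK : ∀ x : K, starRingEnd ℂ (Φ (algebraMap K _ x)) = Φ (algebraMap K _ x) := by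
        intro x
        have h2 : (algebraMap K (AlgebraicClosure K) x) =
            ((algebraMap F M (algebraMap K F x) : M) : AlgebraicClosure K) := rfl
        rw [h2, hΦ, h1', AlgEquiv.commutes]
      obtain ⟨c, hc⟩ := exists_conj Φ hK
      have hcM : ∀ x : M, c x = (τ.symm x : M) := by
        intro x
        apply Φ.injective
        rw [hc, hΦ, hΦ, h1']
      have hcF : c ∈ F.fixingSubgroup := by
        intro x
        have h3 := hcM (algebraMap F M x)
        rw [AlgEquiv.commutes] at h3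
        exact h3
      have hcc : (⟨c, hcF⟩ : F.fixingSubgroup) * ⟨c, hcF⟩ = 1 := by
        apply Subtype.ext
        show c * c = 1
        ext y
        apply Φ.injective
        show Φ (c (c y)) = Φ y
        rw [hc, hc, Complex.conj_conj]
      have h4 := hinv _ hcc
      have h5 := (hfixM _ τ.symm fun x => (hcM x).symm).1 h4
      have h6 : τ⁻¹ = 1 := h5
      exact inv_eq_one.1 h6

end

end BndP

open BndP

theorem t_BND : S_FLV → S_BND := by
  intro hFLV K _ _ U hU
  obtain ⟨F, hfin, rfl⟩ : ∃ F : IntermediateField K (AlgebraicClosure K),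
      FiniteDimensional K F ∧ U = F.fixingSubgroup := by
    have h1 : (IntermediateField.fixedField U).fixingSubgroup = U :=
      InfiniteGalois.fixingSubgroup_fixedField ⟨U, Subgroup.isClosed_of_isOpen U hU⟩
    refine ⟨IntermediateField.fixedField U, ?_, h1.symm⟩
    rw [← InfiniteGalois.isOpen_iff_finite, h1]
    exact hU
  haveI : NumberField F := NumberField.of_module_finite K F
  refine ⟨classNumber F, ?_⟩
  intro n f hn hsurj hopen hin hinv
  set N : Subgroup (GK K) := f.ker.map F.fixingSubgroup.subtype with hN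
  have hNopen : IsOpen (N : Set (GK K)) := by
    have h1 := hU.isOpenMap_subtype_val _ hopen
    exact h1
  set M := IntermediateField.fixedField N with hM
  have hMN : M.fixingSubgroup = N :=
    InfiniteGalois.fixingSubgroup_fixedField ⟨N, Subgroup.isClosed_of_isOpen N hNopen⟩
  haveI : FiniteDimensional K M := by
    rw [← InfiniteGalois.isOpen_iff_finite, hMN]
    exact hNopen
  haveI : NumberField M := NumberField.of_module_finite K M
  have hFM : F ≤ M := by
    intro x hx
    rintro ⟨g, hg⟩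
    obtain ⟨u, -, rfl⟩ := hg
    exact u.2 ⟨x, hx⟩
  refine core F M hFLV hFM n hn f hsurj ?_ hin hinv
  intro g
  rw [hMN]
  constructor
  · intro h
    exact ⟨g, h, rfl⟩
  · rintro ⟨u, hu, hug⟩
    have h1 : u = g := Subtype.ext hug
    rw [← h1]
    exact hu

end Pool.Agent.NH56.HU
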