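import Pool.Agent.NH56.HU.Stm

/-!
# A number field has no everywhere unramified additive characters with values in `ℚ_ℓ`
-/

set_option autoImplicit false

namespace Pool.Agent.NH56.HU

open NumberField IsDedekindDomain Pool.Agent.NH56.HY

namespace CFTp

theorem inertia_pow {K : Type} [Field K] {Q : Ideal (𝓞 (AlgebraicClosure K))} {g : GK K}
    (hg : g ∈ inertia Q) (m : ℕ) : g ^ m ∈ inertia Q := by
  induction m with
  | zero =>
    intro x
    rw [pow_zero, one_smul, sub_self]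
    exact Q.zero_mem
  | succ m ih =>
    intro x
    rw [pow_succ', mul_smul]
    have h := Q.add_mem (hg (g ^ m • x)) (ih x)
    rwa [sub_add_sub_cancel] at h

section add

variable {G : Type} [Group G] {ℓ : ℕ} [Fact ℓ.Prime] {ψ : G → ℚ_[ℓ]}

theorem map_one' (h : ∀ g h, ψ (g * h) = ψ g + ψ h) : ψ 1 = 0 := by
  have h1 := h 1 1
  rw [mul_one] at h1
  exact left_eq_add.1 h1

theorem map_pow' (h : ∀ g h, ψ (g * h) = ψ g + ψ h) (g : G) (m : ℕ) : ψ (g ^ m) = m * ψ g := by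
  induction m with
  | zero =>
    rw [pow_zero, map_one' h, Nat.cast_zero, zero_mul]
  | succ m ih =>
    rw [pow_succ, h, ih]
    push_cast
    ring

/-- an element of norm at most one as an `ℓ`-adic integer -/
def zp (x : ℚ_[ℓ]) (h : ‖x‖ ≤ 1) : ℤ_[ℓ] := ⟨x, h⟩

theorem coe_zp (x : ℚ_[ℓ]) (h : ‖x‖ ≤ 1) : ((zp x h : ℤ_[ℓ]) : ℚ_[ℓ]) = x := rfl

/-- the reduction of an additive character with values in the `ℓ`-adic integers -/
noncomputable def red (h : ∀ g h, ψ (g * h) = ψ g + ψ h) {c : ℚ_[ℓ]}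
    (hc : ∀ g, ‖ψ g / c‖ ≤ 1) (m : ℕ) : G →* Multiplicative (ZMod (ℓ ^ m)) where
  toFun g := Multiplicative.ofAdd (PadicInt.toZModPow m (zp (ψ g / c) (hc g)))
  map_one' := by
    have e : zp (ψ 1 / c) (hc 1) = 0 := by
      apply PadicInt.ext
      rw [coe_zp, CFTp.map_one' h, zero_div, PadicInt.coe_zero]
    rw [e, map_zero]
    rfl
  map_mul' a b := by
    have e : zp (ψ (a * b) / c) (hc (a * b)) = zp (ψ a / c) (hc a) + zp (ψ b / c) (hc b) := by
      apply PadicInt.ext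
      rw [PadicInt.coe_add, coe_zp, coe_zp, coe_zp, h, add_div]
    rw [e, map_add]
    rfl

end add

end CFTp

open CFTp

theorem t_CFT : S_BND → S_TAM → S_CFT := by
  intro hBND hTAM K _ _ ℓ _ U hU ψ hψc hψ hI
  have hcompact : CompactSpace (GK K) := inferInstance
  have hUc : CompactSpace U := by
    have h1 : IsClosed (U : Set (GK K)) := Subgroup.isClosed_of_isOpen U hU
    exact isCompact_iff_compactSpace.1 h1.isCompact
  -- inertia
  have hin : ∀ Q : Ideal (𝓞 (AlgebraicClosure K)), Q.IsMaximal → ∀ g : U,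
      (g : GK K) ∈ inertia Q → ψ g = 0 := by
    intro Q hQ g hg
    by_cases hl : (ℓ : 𝓞 (AlgebraicClosure K)) ∈ Q
    · obtain ⟨V, hV, hVg⟩ := hI Q hQ hl
      have hfin : Finite (GK K ⧸ V) := Subgroup.quotient_finite_of_isOpen V hV
      have hidx : V.index ≠ 0 := by
        have : V.FiniteIndex := Subgroup.finiteIndex_of_finite_quotient
        exact this.index_ne_zero
      obtain ⟨m, hm, -, hm'⟩ := Subgroup.exists_pow_mem_of_index_ne_zero hidx (g : GK K)
      have h1 := hVg (g ^ m) (by simpa using hm') (by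
        have := inertia_pow hg m
        simpa using this)
      rw [map_pow' hψ] at h1
      exact (mul_eq_zero.1 h1).resolve_left (Nat.cast_ne_zero.2 hm.ne')
    · exact hTAM K ℓ U hU ψ hψc hψ Q hQ hl g hg
  have hinv : ∀ g : U, g * g = 1 → ψ g = 0 := by
    intro g hg
    have h1 := hψ g g
    rw [hg, map_one' hψ] at h1
    have h2 : (2 : ℚ_[ℓ]) * ψ g = 0 := by rw [two_mul, ← h1]
    exact (mul_eq_zero.1 h2).resolve_left two_ne_zero
  by_contra hcon
  push Not at hcon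
  obtain ⟨g0, hg0⟩ := hcon
  obtain ⟨g1, -, hg1⟩ := (isCompact_univ : IsCompact (Set.univ : Set U)).exists_isMaxOn
    ⟨1, Set.mem_univ _⟩ (continuous_norm.comp hψc).continuousOn
  have hmax : ∀ g, ‖ψ g‖ ≤ ‖ψ g1‖ := fun g => hg1 (Set.mem_univ g)
  have hpos : 0 < ‖ψ g1‖ := lt_of_lt_of_le (norm_pos_iff.2 hg0) (hmax g0)
  have hne : ψ g1 ≠ 0 := norm_pos_iff.1 hpos
  have hc : ∀ g, ‖ψ g / ψ g1‖ ≤ 1 := by
    intro g
    rw [norm_div]
    exact (div_le_one hpos).2 (hmax g)
  obtain ⟨b, hb⟩ := hBND K U hU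
  have hval : ∀ (m : ℕ) (g : U), ψ g = 0 → red hψ hc m g = 1 := by
    intro m g hg
    change Multiplicative.ofAdd (PadicInt.toZModPow m (zp (ψ g / ψ g1) (hc g))) = 1
    have e : zp (ψ g / ψ g1) (hc g) = 0 := by
      apply PadicInt.ext
      rw [coe_zp, hg, zero_div, PadicInt.coe_zero]
    rw [e, map_zero]
    rfl
  have h2 := hb (ℓ ^ b) (red hψ hc b) (pow_pos (Fact.out : ℓ.Prime).pos _) (fun z => by
    have : NeZero (ℓ ^ b) := ⟨(pow_pos (Fact.out : ℓ.Prime).pos _).ne'⟩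
    refine ⟨g1 ^ (Multiplicative.toAdd z).val, ?_⟩
    change Multiplicative.ofAdd (PadicInt.toZModPow b (zp (ψ (g1 ^ (Multiplicative.toAdd z).val) /
      ψ g1) (hc _))) = z
    have e : zp (ψ (g1 ^ (Multiplicative.toAdd z).val) / ψ g1) (hc _) =
        ((Multiplicative.toAdd z).val : ℤ_[ℓ]) := by
      apply PadicInt.ext
      rw [coe_zp, map_pow' hψ, mul_div_assoc, div_self hne, mul_one, PadicInt.coe_natCast]
    rw [e, map_natCast, ZMod.natCast_zmod_val]
    rfl) ?_ (fun Q hQ g hg => hval b g (hin Q hQ g hg)) (fun g hg => hval b g (hinv g hg))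
  · exact absurd h2 (not_le.2 (Nat.lt_pow_self (Fact.out : ℓ.Prime).one_lt))
  · have h3 : ((red hψ hc b).ker : Set U) = (fun g : U => ψ g / ψ g1) ⁻¹'
        Metric.closedBall 0 ((ℓ : ℝ) ^ (-(b : ℤ))) := by
      ext g
      rw [SetLike.mem_coe, MonoidHom.mem_ker, Set.mem_preimage, Metric.mem_closedBall, dist_zero_right]
      change Multiplicative.ofAdd (PadicInt.toZModPow b (zp (ψ g / ψ g1) (hc g))) = 1 ↔ _
      have h4 : PadicInt.toZModPow b (zp (ψ g / ψ g1) (hc g)) = 0 ↔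
          ‖zp (ψ g / ψ g1) (hc g)‖ ≤ (ℓ : ℝ) ^ (-(b : ℤ)) := by
        rw [PadicInt.norm_le_pow_iff_mem_span_pow, ← PadicInt.ker_toZModPow, RingHom.mem_ker]
      exact h4
    rw [h3]
    refine IsOpen.preimage (hψc.div_const _) ?_
    refine IsUltrametricDist.isOpen_closedBall _ ?_
    have h5 : (0 : ℝ) < ℓ := by exact_mod_cast (Fact.out : ℓ.Prime).pos
    exact (zpow_pos h5 _).ne'

end Pool.Agent.NH56.HU
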