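import Pool.Agent.NH56.HU.Stm

/-!
# The degree of an everywhere unramified cyclic extension is at most the class number
-/

set_option autoImplicit false

namespace Pool.Agent.NH56.HU

open NumberField

namespace Flv

theorem su_iter {F L : Type} [Field F] [Field L] [NumberField L] [Algebra F L] (σ : L ≃ₐ[F] L)
    (i : ℕ) (a : (𝓞 L)ˣ) :
    (((((su σ)^[i]) a : (𝓞 L)ˣ) : 𝓞 L) : L) = (σ ^ i) ((a : 𝓞 L) : L) := by
  induction i with
  | zero => rfl
  | succ i ih =>
    rw [Function.iterate_succ_apply', pow_succ']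
    show σ ((((((su σ)^[i]) a : (𝓞 L)ˣ) : 𝓞 L) : L)) = σ ((σ ^ i) ((a : 𝓞 L) : L))
    rw [ih]

end Flv

theorem t_FLV (hLAT : S_LAT) (hUNT : S_UNT) (hIDL : S_IDL) : S_FLV := by
  intro F L _ _ _ _ _ _ σ hσ hin hw
  have hfd : FiniteDimensional F L := Module.Finite.of_restrictScalars_finite ℚ F L
  set n := Module.finrank F L with hn
  have hn0 : 0 < n := Module.finrank_pos
  have hord : orderOf σ = n := by
    rw [orderOf_eq_card_of_forall_mem_zpowers hσ, IsGalois.card_aut_eq_finrank]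
  have hσn : σ ^ n = 1 := by rw [← hord]; exact pow_orderOf_eq_one σ
  obtain ⟨r, u, c, hc, hrel, hidx, hnm⟩ := hUNT F L σ n hn0 hσn (fun w i h => by
    have h1 := hw w (σ ^ i) h
    rw [← hord]
    exact orderOf_dvd_of_pow_eq_one h1)
  have hfix : ∀ a : (𝓞 L)ˣ, ((su σ)^[n]) a = a := by
    intro a
    apply Units.ext
    apply RingOfIntegers.ext
    rw [Flv.su_iter, hσn]
    rfl
  obtain ⟨h1, h2⟩ := hIDL F L σ hσ hin
  rcases hLAT _ (su σ) n hn0 hfix hnm r u c hc hrel hidx with h | h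
  · exact h.trans h2
  · exact absurd h h1

end Pool.Agent.NH56.HU
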