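import Pool.Agent.NH56.HU.Stm

/-!
# Herbrand's lemma
-/

set_option autoImplicit false

namespace Pool.Agent.NH56.HU

namespace Her

theorem idx {A : Type} [CommGroup A] (p : A →* A) (B : Subgroup A) :
    (B.map p).relIndex p.range * B.relIndex p.ker = B.index := by
  have h1 : (B.map p).relIndex p.range = (B ⊔ p.ker).index := by
    rw [MonoidHom.range_eq_map, Subgroup.relIndex_map_map, top_sup_eq, Subgroup.relIndex_top_right]
  have h2 : B.relIndex p.ker = B.relIndex (B ⊔ p.ker) := (Subgroup.relIndex_sup_left p.ker B).symm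
  rw [h1, h2, mul_comm]
  exact Subgroup.relIndex_mul_index le_sup_left

theorem chain {A : Type} [CommGroup A] (f g : A →* A) (h : ∀ a, g (f a) = 1) (B : Subgroup A)
    (hB : ∀ b ∈ B, f b ∈ B) :
    (B.map f).relIndex f.range * f.range.relIndex g.ker =
      (B.map f).relIndex (g.ker ⊓ B) * B.relIndex g.ker := by
  have hr : f.range ≤ g.ker := by
    rintro _ ⟨a, rfl⟩
    exact h a
  have h1 : B.map f ≤ f.range := by
    rintro _ ⟨a, -, rfl⟩
    exact ⟨a, rfl⟩
  have h2 : B.map f ≤ g.ker ⊓ B := by
    rintro _ ⟨a, ha, rfl⟩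
    exact ⟨h a, hB a ha⟩
  rw [Subgroup.relIndex_mul_relIndex _ _ _ h1 hr]
  rw [← Subgroup.inf_relIndex_left g.ker B, Subgroup.relIndex_mul_relIndex _ _ _ h2 inf_le_left]

end Her

theorem t_HER : S_HER := by
  intro A _ f g hfg hgf B hB hfB hgB
  have h1 := Her.chain f g hgf B hfB
  have h2 := Her.chain g f hfg B hgB
  have h3 := Her.idx f B
  have h4 := Her.idx g B
  refine Nat.eq_of_mul_eq_mul_right (Nat.pos_of_ne_zero hB) ?_
  calc f.range.relIndex g.ker * (B.map g).relIndex (f.ker ⊓ B) * B.index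
      = ((B.map f).relIndex f.range * f.range.relIndex g.ker) *
          ((B.map g).relIndex (f.ker ⊓ B) * B.relIndex f.ker) := by
        rw [← h3]
        ring
    _ = ((B.map f).relIndex (g.ker ⊓ B) * B.relIndex g.ker) *
          ((B.map g).relIndex g.range * g.range.relIndex f.ker) := by
        rw [h1, h2]
    _ = g.range.relIndex f.ker * (B.map f).relIndex (g.ker ⊓ B) *
          ((B.map g).relIndex g.range * B.relIndex g.ker) := by ring
    _ = g.range.relIndex f.ker * (B.map f).relIndex (g.ker ⊓ B) * B.index := by rw [h4]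

end Pool.Agent.NH56.HU
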