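import Pool.Agent.NH56.HU.Stm

/-!
# The first cohomology of the units injects into the class group
-/

set_option autoImplicit false

namespace Pool.Agent.NH56.HU.Idl

open NumberField IsDedekindDomain Ideal
open scoped Pointwise nonZeroDivisors

section

variable {F L : Type} [Field F] [NumberField F] [Field L] [NumberField L] [Algebra F L]
  [IsGalois F L]

theorem ram_one (h : ∀ P : Ideal (𝓞 L), P.IsMaximal → ∀ τ : L ≃ₐ[F] L,
    (∀ x : 𝓞 L, τ • x - x ∈ P) → τ = 1) (p : Ideal (𝓞 F)) (hp : p.IsMaximal)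
    (P : Ideal (𝓞 L)) (hP : P.IsMaximal) (hPp : P.LiesOver p) :
    P.ramificationIdx (𝓞 F) = 1 := by
  have h1 : p.IsPrime := hp.isPrime
  have h2 : P.IsPrime := hP.isPrime
  have hfin : Finite (𝓞 F ⧸ p) := inferInstance
  have h3 : Finite p.ResidueField := by
    have : IsFractionRing (𝓞 F ⧸ p) p.ResidueField := inferInstance
    let _ := Ideal.Quotient.field p
    exact Finite.of_surjective (algebraMap (𝓞 F ⧸ p) p.ResidueField)
      (IsFractionRing.surjective_iff_isField.mpr (Field.toIsField _))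
  have h4 : Nat.card (P.inertia (L ≃ₐ[F] L)) = Ideal.ramificationIdxIn p (𝓞 L) :=
    card_inertia_eq_ramificationIdxIn p P
  have h5 : P.inertia (L ≃ₐ[F] L) = ⊥ := by
    rw [Subgroup.eq_bot_iff_forall]
    intro τ hτ
    exact h P hP τ fun x => hτ x
  rw [h5, Subgroup.card_bot, ramificationIdxIn_eq_ramificationIdx p P (L ≃ₐ[F] L)] at h4
  exact h4.symm

theorem smul_map (g : L ≃ₐ[F] L) (I : Ideal (𝓞 F)) :
    g • I.map (algebraMap (𝓞 F) (𝓞 L)) = I.map (algebraMap (𝓞 F) (𝓞 L)) := by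
  rw [Ideal.pointwise_smul_def, Ideal.map_map]
  congr 1
  ext x
  simp

/-- the ideals that are stable under the Galois group come from the base -/
theorem ext_ideal (h : ∀ P : Ideal (𝓞 L), P.IsMaximal → ∀ τ : L ≃ₐ[F] L,
    (∀ x : 𝓞 L, τ • x - x ∈ P) → τ = 1) : ∀ (N : ℕ) (A : Ideal (𝓞 L)), absNorm A = N → A ≠ ⊥ →
    (∀ g : L ≃ₐ[F] L, g • A = A) → ∃ I : Ideal (𝓞 F), A = I.map (algebraMap (𝓞 F) (𝓞 L)) := by
  intro N
  induction N using Nat.strong_induction_on with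
  | _ N ih =>
  intro A hN hA hg
  by_cases hT : A = ⊤
  · exact ⟨⊤, by rw [hT, Ideal.map_top]⟩
  obtain ⟨P, hP, hAP⟩ := Ideal.exists_le_maximal A hT
  have hP0 : P ≠ ⊥ := fun h0 => hA (le_bot_iff.mp (h0 ▸ hAP))
  set p : Ideal (𝓞 F) := P.under (𝓞 F) with hp
  have hpm : p.IsMaximal := hP.under (𝓞 F)
  have hPp : P.LiesOver p := ⟨rfl⟩
  have hp0 : p ≠ ⊥ := by
    intro h0
    exact hP0 (Ideal.eq_bot_of_comap_eq_bot h0)
  have hprime : P.IsPrime := hP.isPrime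
  have hpprime : p.IsPrime := hpm.isPrime
  have h1 := Ideal.map_algebraMap_eq_finsetProd_pow (R := 𝓞 L) (p := p) hp0
  have h2 : ∀ Q ∈ p.primesOver (𝓞 L), Q.IsMaximal := by
    rintro Q ⟨hQ1, hQ2⟩
    exact Ideal.IsMaximal.of_liesOver_isMaximal Q p
  have h3 : ∏ Q ∈ p.primesOver (𝓞 L), Q ^ Q.ramificationIdx (𝓞 F) =
      ∏ Q ∈ p.primesOver (𝓞 L), Q := by
    refine Finset.prod_congr rfl fun Q hQ => ?_
    rw [Set.mem_toFinset] at hQ
    rw [ram_one h p hpm Q (h2 Q hQ) hQ.2, pow_one]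
  have h4 : ∏ Q ∈ p.primesOver (𝓞 L), Q ∣ A := by
    refine Finset.prod_dvd_of_coprime ?_ ?_
    · intro Q hQ Q' hQ' hne
      have e1 := h2 Q (by simpa using hQ)
      have e2 := h2 Q' (by simpa using hQ')
      exact Ideal.isCoprime_of_isMaximal hne
    · intro Q hQ
      rw [Set.mem_toFinset] at hQ
      have := hQ.1
      have := hQ.2
      obtain ⟨g, hg'⟩ := exists_smul_eq_of_isGaloisGroup p P Q (L ≃ₐ[F] L)
      rw [Ideal.dvd_iff_le, ← hg', ← hg g]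
      exact Ideal.pointwise_smul_le_pointwise_smul_iff.mpr hAP
  rw [h3] at h1
  rw [← h1] at h4
  obtain ⟨B, hB⟩ := h4
  have hm0 : p.map (algebraMap (𝓞 F) (𝓞 L)) ≠ ⊥ := Ideal.map_ne_bot_of_ne_bot hp0
  have hB0 : B ≠ ⊥ := by
    rintro rfl
    exact hA (by rw [hB, Ideal.mul_bot])
  have hgB : ∀ g : L ≃ₐ[F] L, g • B = B := by
    intro g
    have e1 := hg g
    rw [hB, smul_mul', smul_map] at e1
    exact mul_left_cancel₀ hm0 e1
  have hlt : absNorm B < N := by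
    have e1 : absNorm A = absNorm (p.map (algebraMap (𝓞 F) (𝓞 L))) * absNorm B := by
      rw [hB, map_mul]
    have e2 : absNorm (p.map (algebraMap (𝓞 F) (𝓞 L))) ≠ 1 := by
      rw [Ne, Ideal.absNorm_eq_one_iff]
      intro e
      have : p.map (algebraMap (𝓞 F) (𝓞 L)) ≤ P := Ideal.map_le_iff_le_comap.mpr le_rfl
      exact hP.ne_top (top_le_iff.mp (e ▸ this))
    have e3 : absNorm (p.map (algebraMap (𝓞 F) (𝓞 L))) ≠ 0 := by
      rw [Ne, Ideal.absNorm_eq_zero_iff]; exact hm0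
    have e4 : absNorm B ≠ 0 := by
      rw [Ne, Ideal.absNorm_eq_zero_iff]; exact hB0
    rw [← hN, e1]
    have e5 : 2 ≤ absNorm (p.map (algebraMap (𝓞 F) (𝓞 L))) := by omega
    nlinarith [Nat.pos_of_ne_zero e4]
  obtain ⟨J, hJ⟩ := ih _ hlt B rfl hB0 hgB
  exact ⟨p * J, by rw [hB, hJ, Ideal.map_mul]⟩

omit [NumberField F] [IsGalois F L] in
theorem su_coe (σ : L ≃ₐ[F] L) (u : (𝓞 L)ˣ) : (((su σ u : (𝓞 L)ˣ) : 𝓞 L) : L) =
    σ ((u : 𝓞 L) : L) := rfl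

theorem su_iter (σ : L ≃ₐ[F] L) (u : (𝓞 L)ˣ) (i : ℕ) :
    (((((su σ)^[i]) u : (𝓞 L)ˣ) : 𝓞 L) : L) = (σ ^ i) ((u : 𝓞 L) : L) := by
  induction i with
  | zero => rfl
  | succ i ih => rw [Function.iterate_succ_apply', su_coe, ih, pow_succ']; rfl

omit [NumberField F] [NumberField L] [IsGalois F L] in
theorem smul_coe (σ : L ≃ₐ[F] L) (x : 𝓞 L) : ((σ • x : 𝓞 L) : L) = σ (x : L) := rfl

theorem norm_one (σ : L ≃ₐ[F] L) (hσ : ∀ τ : L ≃ₐ[F] L, τ ∈ Subgroup.zpowers σ) (u : (𝓞 L)ˣ)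
    (hu : nm (su σ) (Module.finrank F L) u = 1) : Algebra.norm F ((u : 𝓞 L) : L) = 1 := by
  have h1 : ∏ i ∈ Finset.range (Module.finrank F L), (σ ^ i) ((u : 𝓞 L) : L) = 1 := by
    have h2 : ((algebraMap (𝓞 L) L : 𝓞 L →* L).comp (Units.coeHom (𝓞 L)))
        (∏ i ∈ Finset.range (Module.finrank F L), ((su σ)^[i]) u) = 1 := by
      have h3 : (∏ i ∈ Finset.range (Module.finrank F L), ((su σ)^[i]) u) = 1 := hu
      rw [h3, map_one]
    rw [map_prod] at h2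
    rw [← h2]
    exact Finset.prod_congr rfl fun i _ => (su_iter σ u i).symm
  have hcard : Nat.card (L ≃ₐ[F] L) = Module.finrank F L := IsGalois.card_aut_eq_finrank F L
  have hord : orderOf σ = Module.finrank F L := by
    rw [← hcard]
    exact orderOf_eq_card_of_forall_mem_zpowers hσ
  apply (algebraMap F L).injective
  rw [Algebra.norm_eq_prod_automorphisms, map_one, ← h1]
  symm
  refine Finset.prod_bij (fun i _ => σ ^ i) (fun i _ => Finset.mem_univ _) ?_ ?_ (fun i _ => rfl)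
  · intro i hi j hj hij
    rw [Finset.mem_range, ← hord] at hi hj
    exact pow_injOn_Iio_orderOf (Set.mem_Iio.mpr hi) (Set.mem_Iio.mpr hj) hij
  · intro τ _
    have h3 := hσ τ
    rw [← mem_powers_iff_mem_zpowers, Submonoid.mem_powers_iff] at h3
    obtain ⟨k, hk⟩ := h3
    have hpos : 0 < orderOf σ := orderOf_pos σ
    exact ⟨k % orderOf σ, Finset.mem_range.mpr (hord ▸ Nat.mod_lt _ hpos), by
      rw [pow_mod_orderOf, hk]⟩

/-- Hilbert's theorem 90 and the ideal of the base -/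
theorem exists_data (σ : L ≃ₐ[F] L) (hσ : ∀ τ : L ≃ₐ[F] L, τ ∈ Subgroup.zpowers σ)
    (h : ∀ P : Ideal (𝓞 L), P.IsMaximal → ∀ τ : L ≃ₐ[F] L, (∀ x : 𝓞 L, τ • x - x ∈ P) → τ = 1)
    (u : (𝓞 L)ˣ) (hu : nm (su σ) (Module.finrank F L) u = 1) :
    ∃ (I : (Ideal (𝓞 F))⁰) (ε : 𝓞 L), ε ≠ 0 ∧ (u : 𝓞 L) * σ • ε = ε ∧
      Ideal.span {ε} = (I : Ideal (𝓞 F)).map (algebraMap (𝓞 F) (𝓞 L)) := by
  have h1 := norm_one σ hσ u hu
  have hc : IsCyclic (L ≃ₐ[F] L) := ⟨σ, hσ⟩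
  obtain ⟨ε, hε0, hε⟩ := groupCohomology.exists_mul_galRestrict_of_norm_eq_one (A := 𝓞 F)
    (B := 𝓞 L) (K := F) (L := L) hσ (η := (u : 𝓞 L)) h1
  have h2 : galRestrict (𝓞 F) F L (𝓞 L) σ ε = σ • ε := by
    apply RingOfIntegers.ext
    exact algebraMap_galRestrict_apply (𝓞 F) σ ε
  rw [h2] at hε
  have h3 : σ • Ideal.span {ε} = Ideal.span {ε} := by
    rw [Ideal.pointwise_smul_def, Ideal.map_span, Set.image_singleton,
      Ideal.span_singleton_eq_span_singleton]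
    exact ⟨u, by rw [mul_comm]; exact hε⟩
  have h4 : ∀ g : L ≃ₐ[F] L, g • Ideal.span {ε} = Ideal.span {ε} := by
    intro g
    have : Subgroup.zpowers σ ≤ MulAction.stabilizer (L ≃ₐ[F] L) (Ideal.span {ε}) := by
      rw [Subgroup.zpowers_le]
      exact h3
    exact this (hσ g)
  have h5 : Ideal.span {ε} ≠ ⊥ := by
    rw [Ne, Ideal.span_singleton_eq_bot]; exact hε0
  obtain ⟨I, hI⟩ := ext_ideal h _ (Ideal.span {ε}) rfl h5 h4
  have hI0 : I ≠ ⊥ := by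
    rintro rfl
    rw [Ideal.map_bot] at hI
    exact h5 hI
  exact ⟨⟨I, mem_nonZeroDivisors_of_ne_zero hI0⟩, ε, hε0, hε, hI⟩

theorem smul_algebraMap' (σ : L ≃ₐ[F] L) (x : 𝓞 F) :
    σ • (algebraMap (𝓞 F) (𝓞 L) x) = algebraMap (𝓞 F) (𝓞 L) x := by
  simp

/-- same class: the quotient is a coboundary -/
theorem same_class (σ : L ≃ₐ[F] L) (u u' : (𝓞 L)ˣ) (I I' : (Ideal (𝓞 F))⁰) (ε ε' : 𝓞 L)
    (h0 : ε ≠ 0) (h1 : (u : 𝓞 L) * σ • ε = ε)
    (h2 : Ideal.span {ε} = (I : Ideal (𝓞 F)).map (algebraMap (𝓞 F) (𝓞 L)))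
    (h0' : ε' ≠ 0) (h1' : (u' : 𝓞 L) * σ • ε' = ε')
    (h2' : Ideal.span {ε'} = (I' : Ideal (𝓞 F)).map (algebraMap (𝓞 F) (𝓞 L)))
    (hI : ClassGroup.mk0 I = ClassGroup.mk0 I') : u⁻¹ * u' ∈ (dl (su σ)).range := by
  rw [ClassGroup.mk0_eq_mk0_iff] at hI
  obtain ⟨x, y, hx, hy, hxy⟩ := hI
  have e1 : Ideal.span {algebraMap (𝓞 F) (𝓞 L) x * ε} =
      Ideal.span {algebraMap (𝓞 F) (𝓞 L) y * ε'} := by
    rw [← Ideal.span_singleton_mul_span_singleton, ← Ideal.span_singleton_mul_span_singleton,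
      h2, h2', ← Set.image_singleton, ← Ideal.map_span, ← Ideal.map_mul, hxy, Ideal.map_mul,
      Ideal.map_span, Set.image_singleton]
  rw [Ideal.span_singleton_eq_span_singleton] at e1
  obtain ⟨w, hw⟩ := e1
  -- x ε w = y ε'
  have hinj : Function.Injective (algebraMap (𝓞 F) (𝓞 L)) :=
    FaithfulSMul.algebraMap_injective _ _
  have hx' : algebraMap (𝓞 F) (𝓞 L) x ≠ 0 := by
    rw [Ne, map_eq_zero_iff _ hinj]; exact hx
  have hσ0 : σ • ε ≠ 0 := by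
    intro h; rw [h, mul_zero] at h1; exact h0 h1.symm
  -- apply σ
  have e2 : algebraMap (𝓞 F) (𝓞 L) x * σ • ε * ((su σ w : (𝓞 L)ˣ) : 𝓞 L) =
      algebraMap (𝓞 F) (𝓞 L) y * σ • ε' := by
    have := congrArg (fun z => σ • z) hw
    simp only [smul_mul', smul_algebraMap'] at this
    exact this
  have e3 : (u' : 𝓞 L) * ((su σ w : (𝓞 L)ˣ) : 𝓞 L) = (u : 𝓞 L) * (w : 𝓞 L) := by
    have hc : (algebraMap (𝓞 F) (𝓞 L) x * σ • ε) ≠ 0 := mul_ne_zero hx' hσ0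
    apply mul_left_cancel₀ hc
    calc algebraMap (𝓞 F) (𝓞 L) x * σ • ε * ((u' : 𝓞 L) * ((su σ w : (𝓞 L)ˣ) : 𝓞 L)) =
        (u' : 𝓞 L) * (algebraMap (𝓞 F) (𝓞 L) x * σ • ε * ((su σ w : (𝓞 L)ˣ) : 𝓞 L)) := by ring
      _ = algebraMap (𝓞 F) (𝓞 L) y * ((u' : 𝓞 L) * σ • ε') := by rw [e2]; ring
      _ = algebraMap (𝓞 F) (𝓞 L) y * ε' := by rw [h1']
      _ = algebraMap (𝓞 F) (𝓞 L) x * ε * w := hw.symm
      _ = algebraMap (𝓞 F) (𝓞 L) x * ((u : 𝓞 L) * σ • ε) * w := by rw [h1]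
      _ = algebraMap (𝓞 F) (𝓞 L) x * σ • ε * ((u : 𝓞 L) * (w : 𝓞 L)) := by ring
  have e4 : u' * su σ w = u * w := Units.ext (by push_cast; exact e3)
  refine ⟨w⁻¹, ?_⟩
  change su σ w⁻¹ / w⁻¹ = u⁻¹ * u'
  rw [map_inv, div_eq_mul_inv, inv_inv]
  rw [inv_mul_eq_iff_eq_mul, mul_comm (su σ w) (u⁻¹ * u'), mul_assoc, e4, inv_mul_cancel_left]

end

end Pool.Agent.NH56.HU.Idl

namespace Pool.Agent.NH56.HU

open NumberField Idl
open scoped nonZeroDivisors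

theorem t_IDL : S_IDL := by
  intro F L _ _ _ _ _ _ σ hσ h
  classical
  set D : Subgroup (𝓞 L)ˣ := (dl (su σ)).range with hD
  set Kr : Subgroup (𝓞 L)ˣ := (nm (su σ) (Module.finrank F L)).ker with hKr
  have hdat := fun u : Kr => exists_data σ hσ h (u : (𝓞 L)ˣ) u.2
  choose I ε h0 h1 h2 using hdat
  let φ : Kr ⧸ (D.subgroupOf Kr) → ClassGroup (𝓞 F) := fun q => ClassGroup.mk0 (I q.out)
  have hφ : Function.Injective φ := by
    intro a b hab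
    have e1 := same_class σ (a.out : Kr) (b.out : Kr) (I a.out) (I b.out) (ε a.out) (ε b.out)
      (h0 _) (h1 _) (h2 _) (h0 _) (h1 _) (h2 _) hab
    rw [← a.out_eq', ← b.out_eq', QuotientGroup.eq, Subgroup.mem_subgroupOf]
    exact e1
  have hfin : Finite (Kr ⧸ (D.subgroupOf Kr)) := Finite.of_injective φ hφ
  have e1 : D.relIndex Kr = Nat.card (Kr ⧸ (D.subgroupOf Kr)) := rfl
  rw [e1]
  refine ⟨Nat.card_pos.ne', ?_⟩
  have e2 := Nat.card_le_card_of_injective φ hφ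
  rwa [Nat.card_eq_fintype_card (α := ClassGroup (𝓞 F))] at e2

end Pool.Agent.NH56.HU
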