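import Pool.Agent.NH56.HU.Stm

/-!
# LAT: the lower bound for the first cohomology group of the units
-/

set_option autoImplicit false

namespace Pool.Agent.NH56.HU

section lat

variable {A : Type} [CommGroup A] (s : A →* A) {n r : ℕ} (u : Fin r → A)

/-- the product with the exponents `x j i` -/
def Ph (x : Fin r → Fin n → ℤ) : A := ∏ j, ∏ i : Fin n, ((s^[(i : ℕ)]) (u j)) ^ x j i

theorem Ph_add (x y : Fin r → Fin n → ℤ) : Ph s u (x + y) = Ph s u x * Ph s u y := by
  unfold Ph
  rw [← Finset.prod_mul_distrib]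
  refine Finset.prod_congr rfl fun j _ => ?_
  rw [← Finset.prod_mul_distrib]
  refine Finset.prod_congr rfl fun i _ => ?_
  rw [Pi.add_apply, Pi.add_apply, zpow_add]

theorem Ph_zero : Ph s u (0 : Fin r → Fin n → ℤ) = 1 := by
  unfold Ph
  refine Finset.prod_eq_one fun j _ => Finset.prod_eq_one fun i _ => ?_
  rw [Pi.zero_apply, Pi.zero_apply, zpow_zero]

theorem Ph_neg (x : Fin r → Fin n → ℤ) : Ph s u (-x) = (Ph s u x)⁻¹ := by
  have h := Ph_add s u x (-x)
  rw [add_neg_cancel, Ph_zero] at h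
  exact (inv_eq_of_mul_eq_one_right h.symm).symm

theorem Ph_sub (x y : Fin r → Fin n → ℤ) : Ph s u (x - y) = Ph s u x / Ph s u y := by
  rw [sub_eq_add_neg, Ph_add, Ph_neg, div_eq_mul_inv]

theorem Ph_nsmul (m : ℕ) (x : Fin r → Fin n → ℤ) : Ph s u (m • x) = Ph s u x ^ m := by
  induction m with
  | zero => rw [zero_smul, Ph_zero, pow_zero]
  | succ m ih => rw [succ_nsmul, Ph_add, ih, pow_succ]

/-- the generators -/
def Gn (n : ℕ) : Set A := {x | ∃ (j : Fin r) (i : Fin n), x = (s^[(i : ℕ)]) (u j)}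

theorem Ph_mem (x : Fin r → Fin n → ℤ) : Ph s u x ∈ Subgroup.closure (Gn s u n) :=
  Subgroup.prod_mem _ fun j _ => Subgroup.prod_mem _ fun i _ =>
    Subgroup.zpow_mem _ (Subgroup.subset_closure
      (show (s^[(i : ℕ)]) (u j) ∈ Gn s u n from ⟨j, i, rfl⟩)) _

theorem exists_Ph {b : A} (hb : b ∈ Subgroup.closure (Gn s u n)) :
    ∃ x : Fin r → Fin n → ℤ, b = Ph s u x := by
  induction hb using Subgroup.closure_induction with
  | mem b hb =>
    obtain ⟨j, i, rfl⟩ := hb
    obtain ⟨d, hd⟩ : ∃ d : Fin r → Fin n → ℤ, ∀ j' i', d j' i' = if j' = j ∧ i' = i then 1 else 0 :=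
      ⟨fun j' i' => if j' = j ∧ i' = i then 1 else 0, fun j' i' => rfl⟩
    refine ⟨d, ?_⟩
    unfold Ph
    rw [Finset.prod_eq_single j, Finset.prod_eq_single i]
    · rw [hd, if_pos ⟨rfl, rfl⟩, zpow_one]
    · intro i' _ h
      rw [hd, if_neg fun h' => h h'.2, zpow_zero]
    · intro h
      exact absurd (Finset.mem_univ _) h
    · intro j' _ h
      refine Finset.prod_eq_one fun i' _ => ?_
      rw [hd, if_neg fun h' => h h'.1, zpow_zero]
    · intro h
      exact absurd (Finset.mem_univ _) h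
  | one => exact ⟨0, (Ph_zero s u).symm⟩
  | mul b b' _ _ h h' =>
    obtain ⟨x, rfl⟩ := h
    obtain ⟨x', rfl⟩ := h'
    exact ⟨x + x', (Ph_add s u x x').symm⟩
  | inv b _ h =>
    obtain ⟨x, rfl⟩ := h
    exact ⟨-x, (Ph_neg s u x).symm⟩

theorem iter_map (m : ℕ) (a : A) : s ((s^[m]) a) = (s^[m]) (s a) := by
  rw [← Function.iterate_succ_apply' s m a, Function.iterate_succ_apply]

theorem dl_nm (hs : ∀ a, (s^[n]) a = a) (a : A) : dl s (nm s n a) = 1 := by
  change s (∏ i ∈ Finset.range n, (s^[i]) a) / (∏ i ∈ Finset.range n, (s^[i]) a) = 1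
  rw [map_prod, div_eq_one]
  have h1 := Finset.prod_range_succ (fun i => (s^[i]) a) n
  have h2 := Finset.prod_range_succ' (fun i => (s^[i]) a) n
  rw [h1, hs a] at h2
  have h3 : (∏ i ∈ Finset.range n, (s^[i]) a) = ∏ i ∈ Finset.range n, (s^[i + 1]) a :=
    mul_right_cancel h2
  rw [h3]
  refine Finset.prod_congr rfl fun i _ => ?_
  rw [← Function.iterate_succ_apply' s i a]

theorem nm_dl (hs : ∀ a, (s^[n]) a = a) (a : A) : nm s n (dl s a) = 1 := by
  change nm s n (s a / a) = 1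
  rw [map_div]
  have h := dl_nm s hs a
  change s (nm s n a) / nm s n a = 1 at h
  rw [div_eq_one] at h ⊢
  refine Eq.trans ?_ h
  change ∏ i ∈ Finset.range n, (s^[i]) (s a) = s (∏ i ∈ Finset.range n, (s^[i]) a)
  rw [map_prod]
  exact Finset.prod_congr rfl fun i _ => (iter_map s i a).symm

theorem iter_mod (hs : ∀ a, (s^[n]) a = a) (m : ℕ) (a : A) : (s^[m % n]) a = (s^[m]) a := by
  conv_rhs => rw [← Nat.mod_add_div m n, Function.iterate_add_apply, Function.iterate_mul]
  congr 1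
  exact (Function.iterate_fixed (hs a) _).symm

/-- the shift -/
def sh [NeZero n] (x : Fin r → Fin n → ℤ) : Fin r → Fin n → ℤ := fun j i => x j (i - 1)

theorem map_Ph [NeZero n] (hs : ∀ a, (s^[n]) a = a) (x : Fin r → Fin n → ℤ) :
    s (Ph s u x) = Ph s u (sh x) := by
  unfold Ph
  rw [map_prod]
  refine Finset.prod_congr rfl fun j _ => ?_
  rw [map_prod]
  refine Eq.trans ?_ (Equiv.prod_comp (Equiv.addRight (1 : Fin n)) _)
  refine Finset.prod_congr rfl fun i _ => ?_
  have h1 : sh x j (Equiv.addRight (1 : Fin n) i) = x j i := by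
    change x j (i + 1 - 1) = x j i
    rw [add_sub_cancel_right]
  have h2 : ((Equiv.addRight (1 : Fin n) i : Fin n) : ℕ) = ((i : ℕ) + 1) % n := by
    change ((i + 1 : Fin n) : ℕ) = _
    rw [Fin.val_add, Fin.val_one', Nat.add_mod_mod]
  rw [h1, h2, iter_mod s hs, map_zpow, Function.iterate_succ_apply']

theorem sum_sh [NeZero n] (x : Fin r → Fin n → ℤ) (j : Fin r) :
    ∑ i, sh x j i = ∑ i, x j i :=
  Equiv.sum_comp (Equiv.subRight (1 : Fin n)) (fun i => x j i)

theorem dl_Ph [NeZero n] (hs : ∀ a, (s^[n]) a = a) (x : Fin r → Fin n → ℤ) :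
    dl s (Ph s u x) = Ph s u (sh x - x) := by
  rw [Ph_sub, ← map_Ph s u hs]
  rfl

/-- constant exponents -/
theorem nm_Ph (a : Fin r → ℤ) :
    nm s n (∏ j, u j ^ a j) = Ph s u (fun j (_ : Fin n) => a j) := by
  rw [map_prod]
  refine Finset.prod_congr rfl fun j _ => ?_
  rw [map_zpow, Finset.prod_zpow]
  congr 1
  exact Finset.prod_range (fun i => (s^[i]) (u j))

end lat

theorem t_LAT : S_HER → S_LAT := by
  intro her A _ s n hn hs h0 r u c hc hrel hB
  have : NeZero n := ⟨hn.ne'⟩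
  obtain ⟨j₀, hj₀⟩ : ∃ j, c j ≠ 0 := Function.ne_iff.1 hc
  have hn0 : (n : ℤ) ≠ 0 := by exact_mod_cast hn.ne'
  set B : Subgroup A := Subgroup.closure (Gn s u n) with hBdef
  have hrel' : ∀ x : Fin r → Fin n → ℤ, Ph s u x = 1 ↔ ∃ k : ℤ, ∀ j i, x j i = k * c j := hrel
  have hBf : ∀ b ∈ B, dl s b ∈ B := by
    intro b hb
    obtain ⟨x, rfl⟩ := exists_Ph s u hb
    rw [dl_Ph s u hs]
    exact Ph_mem s u _
  have hBs : ∀ b ∈ B, s b ∈ B := by
    intro b hb
    obtain ⟨x, rfl⟩ := exists_Ph s u hb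
    rw [map_Ph s u hs]
    exact Ph_mem s u _
  have hBi : ∀ (i : ℕ), ∀ b ∈ B, (s^[i]) b ∈ B := by
    intro i
    induction i with
    | zero => exact fun b hb => hb
    | succ i ih =>
      intro b hb
      rw [Function.iterate_succ_apply']
      exact hBs _ (ih b hb)
  have hBg : ∀ b ∈ B, nm s n b ∈ B := by
    intro b hb
    change (∏ i ∈ Finset.range n, (s^[i]) b) ∈ B
    exact Subgroup.prod_mem _ fun i _ => hBi i b hb
  have hher := her A (dl s) (nm s n) (dl_nm s hs) (nm_dl s hs) B hB hBf hBg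
  -- the group `h0 (B)` is trivial
  have hh0 : (B.map (nm s n)).relIndex ((dl s).ker ⊓ B) = 1 := by
    rw [Subgroup.relIndex_eq_one]
    rintro b ⟨hb1, hb2⟩
    obtain ⟨x, rfl⟩ := exists_Ph s u hb2
    have h1 : Ph s u (sh x - x) = 1 := by
      rw [← dl_Ph s u hs]
      exact hb1
    obtain ⟨k, hk⟩ := (hrel' _).1 h1
    have h2 : (n : ℤ) * (k * c j₀) = 0 := by
      have h3 : ∑ i : Fin n, (sh x - x) j₀ i = ∑ _i : Fin n, k * c j₀ :=
        Finset.sum_congr rfl fun i _ => hk j₀ i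
      have h4 : ∑ i : Fin n, (sh x - x) j₀ i = 0 := by
        have h5 : ∀ i, (sh x - x) j₀ i = sh x j₀ i - x j₀ i := fun i => rfl
        rw [Finset.sum_congr rfl fun i _ => h5 i, Finset.sum_sub_distrib, sum_sh, sub_self]
      rw [h4, Finset.sum_const, Finset.card_univ, Fintype.card_fin, nsmul_eq_mul] at h3
      exact h3.symm
    have hk0 : k = 0 := by
      rcases mul_eq_zero.1 h2 with h3 | h3
      · exact absurd h3 hn0
      · rcases mul_eq_zero.1 h3 with h4 | h4
        · exact h4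
        · exact absurd h4 hj₀
    have h5 : ∀ j i, x j (i + 1) = x j i := by
      intro j i
      have h6 := hk j (i + 1)
      rw [hk0, zero_mul] at h6
      have h7 : (sh x - x) j (i + 1) = x j (i + 1 - 1) - x j (i + 1) := rfl
      rw [h7, add_sub_cancel_right] at h6
      linarith
    have h8 : ∀ j (m : ℕ), x j (Fin.ofNat n m) = x j 0 := by
      intro j m
      induction m with
      | zero => rfl
      | succ m ih =>
        rw [← ih, ← h5 j (Fin.ofNat n m)]
        congr 1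
        apply Fin.ext
        rw [Fin.val_add, Fin.val_one']
        change (m + 1) % n = (m % n + 1 % n) % n
        rw [← Nat.add_mod]
    have h9 : x = fun j (_ : Fin n) => x j 0 := by
      funext j i
      rw [← h8 j (i : ℕ)]
      congr 1
      apply Fin.ext
      change (i : ℕ) = (i : ℕ) % n
      rw [Nat.mod_eq_of_lt i.2]
    refine ⟨∏ j, u j ^ x j 0, ?_, ?_⟩
    · refine Subgroup.prod_mem _ fun j _ => Subgroup.zpow_mem _ ?_ _
      exact Subgroup.subset_closure ⟨j, ⟨0, hn⟩, rfl⟩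
    · rw [nm_Ph, ← h9]
  -- the order of `h1 (B)` is a multiple of `n`
  have hh1 : n ∣ (B.map (dl s)).relIndex ((nm s n).ker ⊓ B) := by
    let e : Fin r → Fin n → ℤ := fun j i => if i = 0 then c j else 0
    have he : ∀ j, ∑ i, e j i = c j := by
      intro j
      rw [Finset.sum_ite_eq' Finset.univ (0 : Fin n) (fun _ => c j), if_pos (Finset.mem_univ _)]
    have hey : Ph s u e = ∏ j, u j ^ c j := by
      refine Finset.prod_congr rfl fun j _ => ?_
      rw [Finset.prod_eq_single (0 : Fin n)]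
      · change ((s^[((0 : Fin n) : ℕ)]) (u j)) ^ (if (0 : Fin n) = 0 then c j else 0) = _
        rw [if_pos rfl, Fin.val_zero]
        rfl
      · intro i _ hi
        change _ ^ (if i = 0 then c j else 0) = _
        rw [if_neg hi, zpow_zero]
      · intro h
        exact absurd (Finset.mem_univ _) h
    have hy : Ph s u e ∈ (nm s n).ker ⊓ B := by
      refine ⟨?_, Ph_mem s u _⟩
      change nm s n (Ph s u e) = 1
      rw [hey, nm_Ph, hrel']
      exact ⟨1, fun j i => (one_mul _).symm⟩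
    have hdiv : ∀ m : ℕ, Ph s u e ^ m ∈ B.map (dl s) → n ∣ m := by
      rintro m ⟨b, hb, hbm⟩
      obtain ⟨x, rfl⟩ := exists_Ph s u hb
      rw [dl_Ph s u hs, ← Ph_nsmul] at hbm
      have h1 : Ph s u (m • e - (sh x - x)) = 1 := by
        rw [Ph_sub, hbm, div_self']
      obtain ⟨k, hk⟩ := (hrel' _).1 h1
      have h3 : ∑ i : Fin n, (m • e - (sh x - x)) j₀ i = ∑ _i : Fin n, k * c j₀ :=
        Finset.sum_congr rfl fun i _ => hk j₀ i
      have h4 : ∑ i : Fin n, (m • e - (sh x - x)) j₀ i = m * c j₀ := by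
        have h5 : ∀ i, (m • e - (sh x - x)) j₀ i = m * e j₀ i - (sh x j₀ i - x j₀ i) := by
          intro i
          change (m • e) j₀ i - (sh x j₀ i - x j₀ i) = _
          congr 1
        rw [Finset.sum_congr rfl fun i _ => h5 i, Finset.sum_sub_distrib, Finset.sum_sub_distrib,
          sum_sh, sub_self, sub_zero, ← Finset.mul_sum, he]
      rw [h4, Finset.sum_const, Finset.card_univ, Fintype.card_fin, nsmul_eq_mul, ← mul_assoc] at h3
      have h6 : (m : ℤ) = n * k := mul_right_cancel₀ hj₀ h3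
      exact Int.natCast_dvd_natCast.1 ⟨k, h6⟩
    let y : ((nm s n).ker ⊓ B : Subgroup A) := ⟨Ph s u e, hy⟩
    let Q := ((nm s n).ker ⊓ B : Subgroup A) ⧸ (B.map (dl s)).subgroupOf ((nm s n).ker ⊓ B)
    have h1 : orderOf (QuotientGroup.mk y : Q) ∣ Nat.card Q := orderOf_dvd_natCard _
    refine dvd_trans ?_ h1
    apply hdiv
    have h2 : (QuotientGroup.mk y : Q) ^ orderOf (QuotientGroup.mk y : Q) = 1 :=
      pow_orderOf_eq_one _
    rw [← QuotientGroup.mk_pow, QuotientGroup.eq_one_iff, Subgroup.mem_subgroupOf] at h2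
    exact h2
  rw [hh0, mul_one] at hher
  have h2 : n ∣ (dl s).range.relIndex (nm s n).ker := by
    rw [hher]
    exact Dvd.dvd.mul_left hh1 _
  by_cases h3 : (dl s).range.relIndex (nm s n).ker = 0
  · exact Or.inr h3
  · exact Or.inl (Nat.le_of_dvd (Nat.pos_of_ne_zero h3) h2)

end Pool.Agent.NH56.HU
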