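import Pool.Agent.NH56.HU.Stm

/-!
# Project HU, part POS: a positivity lemma for real matrices
-/

set_option autoImplicit false

namespace Pool.Agent.NH56.HU

namespace PosA

theorem pos1 {W : Type} [Fintype W] [DecidableEq W] {M : W → W → ℝ}
    (hM : ∀ p w, p ≠ w → M p w < 0) (hr : ∀ p, ∑ w, M p w = 0) {a : W → ℝ}
    (ha : ∀ w, ∑ p, a p * M p w = 0) : (∀ p, a p ≤ 0) ∨ ∀ p, 0 < a p := by
  classical
  by_contra hcon
  push Not at hcon
  obtain ⟨⟨p0, hp0⟩, p1, hp1⟩ := hcon
  set P := Finset.univ.filter fun p => 0 < a p with hP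
  have h0 : ∑ p, a p * ∑ w ∈ P, M p w = 0 := by
    have h1 : ∑ w ∈ P, ∑ p, a p * M p w = 0 := Finset.sum_eq_zero fun w _ => ha w
    rw [Finset.sum_comm] at h1
    rw [← h1]
    exact Finset.sum_congr rfl fun p _ => Finset.mul_sum _ _ _
  have hin : ∀ p ∈ P, 0 < a p * ∑ w ∈ P, M p w := by
    intro p hp
    have hap : 0 < a p := (Finset.mem_filter.1 hp).2
    refine mul_pos hap ?_
    have h1 : ∑ w ∈ P, M p w + ∑ w ∈ Pᶜ, M p w = 0 := by
      rw [Finset.sum_add_sum_compl]
      exact hr p
    have h2 : ∑ w ∈ Pᶜ, M p w < 0 := by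
      refine Finset.sum_neg (fun w hw => hM p w ?_) ⟨p1, ?_⟩
      · rintro rfl
        exact (Finset.mem_compl.1 hw) hp
      · rw [Finset.mem_compl, hP, Finset.mem_filter]
        rintro ⟨_, h⟩
        linarith
    linarith
  have hout : ∀ p, 0 ≤ a p * ∑ w ∈ P, M p w := by
    intro p
    by_cases hp : p ∈ P
    · exact (hin p hp).le
    · have hap : a p ≤ 0 := by
        by_contra h
        push Not at h
        exact hp (by rw [hP, Finset.mem_filter]; exact ⟨Finset.mem_univ _, h⟩)
      refine mul_nonneg_of_nonpos_of_nonpos hap ?_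
      refine Finset.sum_nonpos fun w hw => (hM p w ?_).le
      rintro rfl
      exact hp hw
  have hp0P : p0 ∈ P := by
    rw [hP, Finset.mem_filter]
    exact ⟨Finset.mem_univ _, hp0⟩
  have : 0 < ∑ p, a p * ∑ w ∈ P, M p w :=
    Finset.sum_pos' (fun p _ => hout p) ⟨p0, Finset.mem_univ _, hin p0 hp0P⟩
  linarith

theorem pos2 {W : Type} [Fintype W] [DecidableEq W] {M : W → W → ℝ}
    (hM : ∀ p w, p ≠ w → M p w < 0) (hr : ∀ p, ∑ w, M p w = 0) {a : W → ℝ}
    (ha : ∀ w, ∑ p, a p * M p w = 0) : a = 0 ∨ (∀ p, 0 < a p) ∨ ∀ p, a p < 0 := by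
  rcases pos1 hM hr ha with h | h
  · have ha' : ∀ w, ∑ p, (-a p) * M p w = 0 := by
      intro w
      have : ∑ p, (-a p) * M p w = -∑ p, a p * M p w := by
        rw [← Finset.sum_neg_distrib]
        exact Finset.sum_congr rfl fun p _ => by ring
      rw [this, ha w, neg_zero]
    rcases pos1 (a := fun p => -a p) hM hr ha' with h' | h'
    · left
      funext p
      have h1 := h p
      have h2 := h' p
      simp only [Pi.zero_apply]
      linarith
    · right; right
      intro p
      have := h' p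
      linarith
  · exact Or.inr (Or.inl h)

end PosA

open PosA in
theorem t_POS : S_POS := by
  intro W _ _ M hM hr a ha
  refine ⟨pos2 hM hr ha, fun b hb hb0 => ?_⟩
  obtain ⟨p0, hp0⟩ : ∃ p, b p ≠ 0 := by
    by_contra h
    push Not at h
    exact hb0 (funext h)
  refine ⟨a p0 / b p0, fun p => ?_⟩
  have hc : ∀ w, ∑ p, (a p - a p0 / b p0 * b p) * M p w = 0 := by
    intro w
    have : ∑ p, (a p - a p0 / b p0 * b p) * M p w =
        ∑ p, a p * M p w - a p0 / b p0 * ∑ p, b p * M p w := by
      rw [Finset.mul_sum, ← Finset.sum_sub_distrib]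
      exact Finset.sum_congr rfl fun p _ => by ring
    rw [this, ha w, hb w]
    ring
  have hz : a p0 - a p0 / b p0 * b p0 = 0 := by
    field_simp
    ring
  rcases pos2 (a := fun p => a p - a p0 / b p0 * b p) hM hr hc with h | h | h
  · have := congrFun h p
    simp only [Pi.zero_apply] at this
    linarith
  · have := h p0
    rw [hz] at this
    exact absurd this (lt_irrefl _)
  · have := h p0
    rw [hz] at this
    exact absurd this (lt_irrefl _)

end Pool.Agent.NH56.HU
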