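import Pool.Agent.NH56.HU.Stm

/-!
# Additive characters are unramified outside of `ℓ`
-/

set_option autoImplicit false

namespace Pool.Agent.NH56.HU

open NumberField IsDedekindDomain Pool.Agent.NH56.HY

namespace Tam

variable {G : Type} [Group G] {ℓ : ℕ} [hℓ : Fact ℓ.Prime] {ψ : G → ℚ_[ℓ]}

theorem one (h : ∀ a b, ψ (a * b) = ψ a + ψ b) : ψ 1 = 0 := by
  have h1 := h 1 1
  rw [mul_one] at h1
  linear_combination -h1

theorem inv (h : ∀ a b, ψ (a * b) = ψ a + ψ b) (a : G) : ψ a⁻¹ = -ψ a := by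
  have h1 := h a a⁻¹
  rw [mul_inv_cancel, one h] at h1
  linear_combination -h1

theorem pow (h : ∀ a b, ψ (a * b) = ψ a + ψ b) (a : G) (n : ℕ) : ψ (a ^ n) = n * ψ a := by
  induction n with
  | zero => rw [pow_zero, one h, Nat.cast_zero, zero_mul]
  | succ n ih => rw [pow_succ, h, ih]; push_cast; ring

/-- the subgroup of the elements at which `ψ` is small -/
def sm (h : ∀ a b, ψ (a * b) = ψ a + ψ b) (m : ℕ) : Subgroup G where
  carrier := {g | ‖ψ g‖ ≤ (ℓ : ℝ) ^ (-(m : ℤ))}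
  mul_mem' {a b} ha hb := by
    show ‖ψ (a * b)‖ ≤ _
    rw [h]
    exact (IsUltrametricDist.norm_add_le_max _ _).trans (max_le ha hb)
  one_mem' := by
    show ‖ψ 1‖ ≤ _
    rw [one h, norm_zero]
    positivity
  inv_mem' {a} ha := by
    show ‖ψ a⁻¹‖ ≤ _
    rw [inv h, norm_neg]
    exact ha

theorem mem_sm (h : ∀ a b, ψ (a * b) = ψ a + ψ b) (m : ℕ) (g : G) :
    g ∈ sm h m ↔ ‖ψ g‖ ≤ (ℓ : ℝ) ^ (-(m : ℤ)) := Iff.rfl

theorem isOpen_sm [TopologicalSpace G] (hc : Continuous ψ) (h : ∀ a b, ψ (a * b) = ψ a + ψ b)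
    (m : ℕ) : IsOpen (sm h m : Set G) := by
  have h1 : (sm h m : Set G) = ψ ⁻¹' Metric.closedBall 0 ((ℓ : ℝ) ^ (-(m : ℤ))) := by
    ext x
    rw [Set.mem_preimage, mem_closedBall_zero_iff]
    exact Iff.rfl
  rw [h1]
  refine (IsUltrametricDist.isOpen_closedBall _ ?_).preimage hc
  have : (0 : ℝ) < ℓ := by exact_mod_cast hℓ.out.pos
  positivity

/-- some power of `ℓ` of every element is in the subgroup -/
theorem pow_mem (h : ∀ a b, ψ (a * b) = ψ a + ψ b) (m : ℕ) (g : G) : ∃ k, g ^ ℓ ^ k ∈ sm h m := by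
  have hl : (1 : ℝ) < ℓ := by exact_mod_cast hℓ.out.one_lt
  have hp : (0 : ℝ) < (ℓ : ℝ) ^ (-(m : ℤ)) := by positivity
  obtain ⟨k, hk⟩ := pow_unbounded_of_one_lt (‖ψ g‖ / (ℓ : ℝ) ^ (-(m : ℤ))) hl
  refine ⟨k, ?_⟩
  rw [mem_sm, pow h, norm_mul, Nat.cast_pow, norm_pow, Padic.norm_p, inv_pow]
  rw [div_lt_iff₀ hp] at hk
  rw [inv_mul_le_iff₀ (by positivity)]
  exact hk.le

end Tam

open Tam

/-- **TAM** -/
theorem t_TAM : S_TMF → S_TAM := by
  intro htmf K _ _ ℓ hℓ U hU ψ hψ hadd Q hQ hlQ g hg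
  have hUc : IsClosed (U : Set (GK K)) := Subgroup.isClosed_of_isOpen _ hU
  obtain ⟨F, hF⟩ : ∃ F : IntermediateField K (AlgebraicClosure K),
    F = IntermediateField.fixedField U := ⟨_, rfl⟩
  have hFU : F.fixingSubgroup = U := by
    rw [hF]
    exact InfiniteGalois.fixingSubgroup_fixedField ⟨U, hUc⟩
  have hFfd : FiniteDimensional K F := by
    rw [← InfiniteGalois.isOpen_iff_finite, hFU]
    exact hU
  have hFnf : NumberField F := NumberField.of_module_finite K F
  have hgalF : IsGalois F (AlgebraicClosure K) := inferInstance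
  let E : Gal(AlgebraicClosure K/F) ≃* U :=
    (IntermediateField.fixingSubgroupEquiv F).symm.trans (MulEquiv.subgroupCongr hFU)
  have hE : ∀ (σ : Gal(AlgebraicClosure K/F)) (x : AlgebraicClosure K),
      ((E σ : U) : GK K) x = σ x := fun σ x => rfl
  -- the number `q`
  set q : ℕ := Nat.card (𝓞 F ⧸ Q.comap (algebraMap (𝓞 F) (𝓞 (AlgebraicClosure K)))) with hq
  have key : ∀ m : ℕ, 2 ≤ q ∧ ‖((q : ℚ_[ℓ]) - 1) * ψ g‖ ≤ (ℓ : ℝ) ^ (-(m : ℤ)) := by
    intro m
    obtain ⟨N, hN⟩ : ∃ N : Subgroup (GK K), N = (sm hadd m).map U.subtype := ⟨_, rfl⟩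
    have hNU : N ≤ U := by
      rw [hN]
      rintro _ ⟨x, -, rfl⟩
      exact x.2
    have hNo : IsOpen (N : Set (GK K)) := by
      rw [hN, Subgroup.coe_map]
      exact hU.isOpenMap_subtype_val _ (isOpen_sm hψ hadd m)
    have hNc : IsClosed (N : Set (GK K)) := Subgroup.isClosed_of_isOpen _ hNo
    obtain ⟨L, hL⟩ : ∃ L : IntermediateField K (AlgebraicClosure K),
      L = IntermediateField.fixedField N := ⟨_, rfl⟩
    have hLN : L.fixingSubgroup = N := by
      rw [hL]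
      exact InfiniteGalois.fixingSubgroup_fixedField ⟨N, hNc⟩
    have hLfd : FiniteDimensional K L := by
      rw [← InfiniteGalois.isOpen_iff_finite, hLN]
      exact hNo
    have hFL : F ≤ L := by
      rw [hL, IntermediateField.le_iff_le, hFU]
      exact hNU
    let L' : IntermediateField F (AlgebraicClosure K) := IntermediateField.extendScalars hFL
    let e : L ≃ₗ[K] L' :=
      { toFun := fun x => ⟨x.1, x.2⟩
        invFun := fun x => ⟨x.1, x.2⟩
        left_inv := fun x => rfl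
        right_inv := fun x => rfl
        map_add' := fun x y => rfl
        map_smul' := fun c x => rfl }
    have hfd1 : FiniteDimensional K L' := Module.Finite.equiv e
    have hfd2 : FiniteDimensional F L' := Module.Finite.of_restrictScalars_finite K F L'
    have hnf : NumberField L' := NumberField.of_module_finite F L'
    have hmem : ∀ σ : Gal(AlgebraicClosure K/F), σ ∈ L'.fixingSubgroup ↔
        ‖ψ (E σ)‖ ≤ (ℓ : ℝ) ^ (-(m : ℤ)) := by
      intro σ
      have h1 : σ ∈ L'.fixingSubgroup ↔ ((E σ : U) : GK K) ∈ L.fixingSubgroup := by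
        rw [IntermediateField.mem_fixingSubgroup_iff, IntermediateField.mem_fixingSubgroup_iff]
        exact Iff.rfl
      rw [h1, hLN, hN]
      constructor
      · rintro ⟨x, hx, hx'⟩
        have h2 : x = E σ := Subtype.ext hx'
        rw [← h2]
        exact hx
      · intro h
        exact ⟨E σ, h, rfl⟩
    have hgal : IsGalois F L' := by
      rw [← InfiniteGalois.normal_iff_isGalois]
      refine ⟨fun n hn g => ?_⟩
      rw [hmem] at hn ⊢
      rw [map_mul, map_mul, hadd, hadd, map_inv, inv hadd, add_comm (ψ (E g)), add_assoc,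
        add_neg_cancel, add_zero]
      exact hn
    set r : Gal(AlgebraicClosure K/F) →* Gal(L'/F) := AlgEquiv.restrictNormalHom L' with hr
    have hrs : Function.Surjective r := AlgEquiv.restrictNormalHom_surjective _
    have hrk : r.ker = L'.fixingSubgroup := L'.restrictNormalHom_ker
    have hpg : IsPGroup ℓ Gal(L'/F) := by
      intro g
      obtain ⟨τ, rfl⟩ := hrs g
      obtain ⟨k, hk⟩ := pow_mem hadd m (E τ)
      refine ⟨k, ?_⟩
      rw [mem_sm, ← map_pow, ← hmem, ← hrk, MonoidHom.mem_ker, map_pow] at hk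
      exact hk
    set φ : 𝓞 L' →+* 𝓞 (AlgebraicClosure K) := algebraMap (𝓞 L') (𝓞 (AlgebraicClosure K)) with hφ
    have hcomm : ∀ (τ : Gal(AlgebraicClosure K/F)) (x : 𝓞 L'),
        φ (r τ • x) = ((E τ : U) : GK K) • φ x := by
      intro τ x
      apply RingOfIntegers.ext
      exact AlgEquiv.restrictNormal_commutes τ L' (x : L')
    have hPm : (Q.comap φ).IsMaximal :=
      Ideal.isMaximal_comap_of_isIntegral_of_isMaximal Q
    have hlP : (ℓ : 𝓞 L') ∉ Q.comap φ := by
      rw [Ideal.mem_comap, map_natCast]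
      exact hlQ
    obtain ⟨q', hq2, hqq, f, hf⟩ := htmf F L' ℓ hℓ.out hpg (Q.comap φ) hPm hlP
    have hqeq : q' = q := by
      rw [← hqq, hq, Ideal.comap_comap]
      rfl
    subst hqeq
    refine ⟨hq2, ?_⟩
    obtain ⟨f', rfl⟩ := hrs f
    have hgE : E (E.symm g) = g := E.apply_symm_apply g
    have h1 := hf (r (E.symm g)) (by
      intro x
      rw [Ideal.mem_comap, map_sub, hcomm, hgE]
      exact hg (φ x))
    rw [← map_inv, ← map_mul, ← map_mul, ← map_pow] at h1
    have h2 : (E.symm g) ^ q * (f' * E.symm g * f'⁻¹)⁻¹ ∈ r.ker := by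
      rw [MonoidHom.mem_ker, map_mul, map_inv, h1, mul_inv_cancel]
    rw [hrk, hmem, map_mul, map_inv, map_pow, hgE, hadd, inv hadd, pow hadd, map_mul, map_mul,
      hadd, hadd, map_inv, inv hadd, hgE] at h2
    have h3 : ((q : ℚ_[ℓ]) - 1) * ψ g = (q : ℚ_[ℓ]) * ψ g + -(ψ (E f') + ψ g + -ψ (E f')) := by
      ring
    rw [h3]
    exact h2
  have hq2 : 2 ≤ q := (key 0).1
  have h0 : ((q : ℚ_[ℓ]) - 1) * ψ g = 0 := by
    rw [← norm_le_zero_iff]
    have hl : (1 : ℝ) < ℓ := by exact_mod_cast hℓ.out.one_lt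
    have hlim : Filter.Tendsto (fun m : ℕ => (ℓ : ℝ) ^ (-(m : ℤ))) Filter.atTop (nhds 0) := by
      have h1 : (fun m : ℕ => (ℓ : ℝ) ^ (-(m : ℤ))) = fun m : ℕ => ((ℓ : ℝ)⁻¹) ^ m := by
        funext m
        rw [zpow_neg, zpow_natCast, inv_pow]
      rw [h1]
      exact tendsto_pow_atTop_nhds_zero_of_lt_one (by positivity) (inv_lt_one_of_one_lt₀ hl)
    exact ge_of_tendsto' hlim fun m => (key m).2
  rcases mul_eq_zero.1 h0 with h | h
  · exfalso
    have h1 : (q : ℚ_[ℓ]) = ((1 : ℕ) : ℚ_[ℓ]) := by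
      push_cast
      exact sub_eq_zero.1 h
    have h2 : q = 1 := Nat.cast_injective h1
    omega
  · exact h

end Pool.Agent.NH56.HU
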