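import Pool.Agent.NH56.HU.Stm
import Pool.Agent.W258.FM.TameFin

/-!
# TMF: the tame relation in a finite Galois extension
-/

set_option autoImplicit false

namespace Pool.Agent.NH56.HU

open NumberField

theorem t_TMF : S_TMF := by
  intro F L _ _ _ _ _ _ ℓ hℓ hG P hmax hlP
  have hfact : Fact ℓ.Prime := ⟨hℓ⟩
  have h0 : P ≠ ⊥ := Ring.ne_bot_of_isMaximal_of_not_isField hmax (RingOfIntegers.not_isField L)
  obtain ⟨k, hk⟩ := (IsPGroup.iff_card (p := ℓ) (G := L ≃ₐ[F] L)).1 hG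
  have hN : ((ℓ ^ k : ℕ) : 𝓞 L) ∉ P := by
    intro h
    push_cast at h
    exact hlP (hmax.isPrime.mem_of_pow_mem k h)
  have hGN : ∀ g : L ≃ₐ[F] L, g ^ (ℓ ^ k) = 1 := by
    intro g
    rw [← hk]
    exact pow_card_eq_one'
  have : FaithfulSMul (L ≃ₐ[F] L) (𝓞 L) := by
    refine ⟨?_⟩
    intro a b hab
    ext x
    obtain ⟨y, z, hz, rfl⟩ := IsFractionRing.div_surjective (A := 𝓞 L) x
    have ey : a (algebraMap (𝓞 L) L y) = b (algebraMap (𝓞 L) L y) :=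
      congrArg (algebraMap (𝓞 L) L) (hab y)
    have ez : a (algebraMap (𝓞 L) L z) = b (algebraMap (𝓞 L) L z) :=
      congrArg (algebraMap (𝓞 L) L) (hab z)
    rw [map_div₀, map_div₀, ey, ez]
  have hPp : P.IsPrime := hmax.isPrime
  have hfin : Finite (𝓞 L ⧸ P) := Ideal.finiteQuotientOfFreeOfNeBot P h0
  obtain ⟨φ, hφ⟩ := IsArithFrobAt.exists_of_isInvariant (𝓞 F) (L ≃ₐ[F] L) P
  have hq0 : 0 < Nat.card (𝓞 F ⧸ P.comap (algebraMap (𝓞 F) (𝓞 L))) := hφ.card_pos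
  have hfin2 : Finite (𝓞 F ⧸ P.comap (algebraMap (𝓞 F) (𝓞 L))) := Nat.finite_of_card_ne_zero hq0.ne'
  have hnt : Nontrivial (𝓞 F ⧸ P.comap (algebraMap (𝓞 F) (𝓞 L))) :=
    Ideal.Quotient.nontrivial_iff.2 (Ideal.comap_ne_top _ hPp.ne_top)
  refine ⟨_, Finite.one_lt_card, rfl, φ, ?_⟩
  intro τ hτ
  exact Pool.Agent.W258.FM.tame_rel hmax h0 hN hGN hq0.ne' hτ hφ

end Pool.Agent.NH56.HU
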