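import Pool.Agent.NH56.HU.Stm

/-!
# Units with few relations in a cyclic extension (UNT)
-/

set_option autoImplicit false

namespace Pool.Agent.NH56.HU

open NumberField

namespace K40

section Alg

variable {A : Type} [CommGroup A]

/-- the element with index `p` -/
def vv (s : A →* A) {r n : ℕ} (u : Fin r → A) (p : Fin r × Fin n) : A := (s^[(p.2 : ℕ)]) (u p.1)

/-- the product with exponents `a` -/
noncomputable def Ph (s : A →* A) {r n : ℕ} (u : Fin r → A) :
    (Fin r × Fin n → ℤ) →ₗ[ℤ] Additive A :=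
  Fintype.linearCombination ℤ (fun p => Additive.ofMul (vv s u p))

theorem Ph_apply (s : A →* A) {r n : ℕ} (u : Fin r → A) (a : Fin r × Fin n → ℤ) :
    Ph s u a = ∑ p, a p • Additive.ofMul (vv s u p) := by
  unfold Ph
  rw [Fintype.linearCombination_apply]

theorem rel_iff (s : A →* A) {r n : ℕ} (u : Fin r → A) (a : Fin r → Fin n → ℤ) :
    ∏ j, ∏ i : Fin n, ((s^[(i : ℕ)]) (u j)) ^ a j i = 1 ↔
      Ph s u (fun p => a p.1 p.2) = 0 := by
  rw [Ph_apply, Fintype.sum_prod_type, ← ofMul_one, ← Additive.ofMul.injective.eq_iff (a := ∏ j, _)]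
  simp only [ofMul_prod, ofMul_zpow, vv]

/-- the shift -/
def sh {r n : ℕ} [NeZero n] (a : Fin r × Fin n → ℤ) : Fin r × Fin n → ℤ :=
  fun p => a (p.1, p.2 - 1)

/-- the shift of the indices -/
def eqv (r n : ℕ) [NeZero n] : Fin r × Fin n ≃ Fin r × Fin n :=
  Equiv.prodCongr (Equiv.refl _) (Equiv.addRight (1 : Fin n))

theorem vv_succ (s : A →* A) {r n : ℕ} [NeZero n] (hs : ∀ a, (s^[n]) a = a) (u : Fin r → A)
    (j : Fin r) (i : Fin n) : vv s u (j, i + 1) = s (vv s u (j, i)) := by
  unfold vv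
  show (s^[((i + 1 : Fin n) : ℕ)]) (u j) = s ((s^[(i : ℕ)]) (u j))
  rw [← Function.iterate_succ_apply' (f := s)]
  have h1 : ((i + 1 : Fin n) : ℕ) = ((i : ℕ) + 1) % n := by
    rw [Fin.val_add, Fin.val_one']
    simp
  rw [h1]
  have h2 : Function.IsPeriodicPt (s : A → A) n (u j) := hs (u j)
  exact h2.iterate_mod_apply _

theorem Ph_sh (s : A →* A) {r n : ℕ} [NeZero n] (hs : ∀ a, (s^[n]) a = a) (u : Fin r → A)
    (a : Fin r × Fin n → ℤ) :
    Ph s u (sh a) = (MonoidHom.toAdditive s) (Ph s u a) := by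
  rw [Ph_apply, Ph_apply, map_sum, ← Equiv.sum_comp (eqv r n)]
  refine Finset.sum_congr rfl fun p _ => ?_
  obtain ⟨j, i⟩ := p
  have h1 : sh a (eqv r n (j, i)) = a (j, i) := by
    show a (j, (i + 1) - 1) = a (j, i)
    rw [add_sub_cancel_right]
  have h2 : vv s u (eqv r n (j, i)) = s (vv s u (j, i)) := vv_succ s hs u j i
  rw [h1, h2, map_zsmul]
  rfl

theorem core (s : A →* A) (n r : ℕ) (hn : 0 < n) (hs : ∀ a, (s^[n]) a = a)
    [Module.Finite ℤ (Additive A)] (u : Fin r → A)
    (hrank : Module.finrank ℤ (Additive A) < r * n)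
    (hrank3 : r * n ≤ Module.finrank ℤ (Additive A) + 1)
    (hrel : ∀ a : Fin r × Fin n → ℤ, Ph s u a = 0 →
      a = 0 ∨ (∀ p, 0 < a p) ∨ (∀ p, a p < 0)) :
    ∃ c : Fin r → ℤ, c ≠ 0 ∧
    (∀ a : Fin r → Fin n → ℤ, ∏ j, ∏ i : Fin n, ((s^[(i : ℕ)]) (u j)) ^ a j i = 1 ↔
      ∃ k : ℤ, ∀ j i, a j i = k * c j) ∧
    (Subgroup.closure {x | ∃ (j : Fin r) (i : Fin n), x = (s^[(i : ℕ)]) (u j)}).index ≠ 0 ∧
    (nm s n).range.relIndex (dl s).ker ≠ 0 := by
  classical
  have : NeZero n := ⟨hn.ne'⟩
  have hcard : Module.finrank ℤ (Fin r × Fin n → ℤ) = r * n := by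
    rw [Module.finrank_fintype_fun_eq_card, Fintype.card_prod, Fintype.card_fin, Fintype.card_fin]
  have hP : 0 < r * n := by omega
  have hr : 0 < r := Nat.pos_of_mul_pos_right hP
  let p0 : Fin r × Fin n := (⟨0, hr⟩, ⟨0, hn⟩)
  -- a nonzero relation
  have hne : ∃ a : Fin r × Fin n → ℤ, Ph s u a = 0 ∧ a ≠ 0 := by
    by_contra hcon
    push Not at hcon
    have hinj : Function.Injective (Ph s u : (Fin r × Fin n → ℤ) →ₗ[ℤ] Additive A) := by
      rw [← LinearMap.ker_eq_bot, LinearMap.ker_eq_bot']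
      exact hcon
    have := LinearMap.finrank_le_finrank_of_injective hinj
    rw [hcard] at this
    omega
  have hpos : ∃ m : ℕ, ∃ a : Fin r × Fin n → ℤ, Ph s u a = 0 ∧ (∀ p, 0 < a p) ∧ a p0 = m := by
    obtain ⟨a, ha, ha0⟩ := hne
    rcases hrel a ha with h | h | h
    · exact absurd h ha0
    · exact ⟨(a p0).toNat, a, ha, h, by rw [Int.toNat_of_nonneg (h p0).le]⟩
    · refine ⟨(-a p0).toNat, -a, by rw [map_neg, ha, neg_zero], fun p => ?_, ?_⟩
      · have := h p
        simp only [Pi.neg_apply]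
        omega
      · have := h p0
        simp only [Pi.neg_apply]
        rw [Int.toNat_of_nonneg (by omega)]
  obtain ⟨t, ht, htpos, htm⟩ := Nat.find_spec hpos
  have hmin : ∀ b : Fin r × Fin n → ℤ, Ph s u b = 0 → (∀ p, 0 < b p) → t p0 ≤ b p0 := by
    intro b hb hbpos
    have h1 : Nat.find hpos ≤ (b p0).toNat :=
      Nat.find_min' hpos ⟨b, hb, hbpos, by rw [Int.toNat_of_nonneg (hbpos p0).le]⟩
    rw [htm]
    have h2 := hbpos p0
    omega
  -- every relation is a multiple of `t`
  have hgen : ∀ a : Fin r × Fin n → ℤ, Ph s u a = 0 → ∃ k : ℤ, a = k • t := by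
    intro a ha
    refine ⟨a p0 / t p0, ?_⟩
    have hb : Ph s u (a - (a p0 / t p0) • t) = 0 := by
      rw [map_sub, map_zsmul, ha, ht, smul_zero, sub_zero]
    have hb0 : (a - (a p0 / t p0) • t) p0 = a p0 % t p0 := by
      simp only [Pi.sub_apply, Pi.smul_apply, smul_eq_mul]
      have := Int.mul_ediv_add_emod (a p0) (t p0)
      rw [mul_comm] at this
      omega
    have h1 : 0 ≤ a p0 % t p0 := Int.emod_nonneg _ (htpos p0).ne'
    have h2 : a p0 % t p0 < t p0 := Int.emod_lt_of_pos _ (htpos p0)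
    rcases hrel _ hb with h | h | h
    · exact sub_eq_zero.mp h
    · have := hmin _ hb h
      rw [hb0] at this
      omega
    · have := h p0
      rw [hb0] at this
      omega
  -- the shift
  have hsht : sh t = t := by
    have h1 : Ph s u (sh t) = 0 := by rw [Ph_sh s hs, ht, map_zero]
    obtain ⟨k, hk⟩ := hgen _ h1
    have h2 : ∑ p, sh t p = ∑ p, t p := by
      rw [← Equiv.sum_comp (eqv r n)]
      refine Finset.sum_congr rfl fun p _ => ?_
      obtain ⟨j, i⟩ := p
      show t (j, (i + 1) - 1) = t (j, i)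
      rw [add_sub_cancel_right]
    have h3 : 0 < ∑ p, t p := Finset.sum_pos (fun p _ => htpos p) ⟨p0, Finset.mem_univ _⟩
    rw [hk] at h2
    simp only [Pi.smul_apply, smul_eq_mul] at h2
    rw [← Finset.mul_sum] at h2
    have h4 : k = 1 := by
      have h5 : (k - 1) * ∑ p, t p = 0 := by rw [sub_mul, h2, one_mul, sub_self]
      rcases mul_eq_zero.mp h5 with h6 | h6
      · omega
      · omega
    rw [hk, h4, one_smul]
  have hconst : ∀ (j : Fin r) (i : Fin n), t (j, i) = t (j, 0) := by
    intro j i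
    have h1 : ∀ (k : ℕ) (hk : k < n), t (j, ⟨k, hk⟩) = t (j, 0) := by
      intro k
      induction k with
      | zero => exact fun hk => rfl
      | succ k ih =>
        intro hk
        have h2 := congrFun hsht (j, ⟨k + 1, hk⟩)
        have h3 : (⟨k + 1, hk⟩ : Fin n) - 1 = ⟨k, by omega⟩ := by
          rw [sub_eq_iff_eq_add]
          apply Fin.ext
          rw [Fin.val_add, Fin.val_one']
          simp [Nat.mod_eq_of_lt hk]
        rw [← h2]
        show t (j, (⟨k + 1, hk⟩ : Fin n) - 1) = t (j, 0)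
        rw [h3, ih]
    exact h1 i.1 i.2
  -- relations with a zero coordinate are zero
  have hzero : ∀ b : Fin r × Fin n → ℤ, Ph s u b = 0 → b p0 = 0 → b = 0 := by
    intro b hb hb0
    rcases hrel b hb with h | h | h
    · exact h
    · have := h p0
      omega
    · have := h p0
      omega
  have hnoeth : IsNoetherian ℤ (Additive A) := inferInstance
  have hfgA : Group.FG A := by
    rw [GroupFG.iff_add_fg]
    exact Module.Finite.iff_addGroup_fg.mp inferInstance
  refine ⟨fun j => t (j, 0), ?_, ?_, ?_, ?_⟩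
  · intro h
    have := congrFun h ⟨0, hr⟩
    have h2 := htpos (⟨0, hr⟩, 0)
    simp only [Pi.zero_apply] at this
    omega
  · intro a
    rw [rel_iff]
    constructor
    · intro ha
      obtain ⟨k, hk⟩ := hgen _ ha
      refine ⟨k, fun j i => ?_⟩
      have h1 := congrFun hk (j, i)
      simp only [Pi.smul_apply, smul_eq_mul] at h1
      rw [h1, hconst j i]
    · rintro ⟨k, hk⟩
      have h1 : (fun p : Fin r × Fin n => a p.1 p.2) = k • t := by
        funext p
        obtain ⟨j, i⟩ := p
        simp only [Pi.smul_apply, smul_eq_mul]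
        rw [hk j i, hconst j i]
      rw [h1, map_zsmul, ht, smul_zero]
  · set B := Subgroup.closure {x | ∃ (j : Fin r) (i : Fin n), x = (s^[(i : ℕ)]) (u j)} with hB
    have hvB : ∀ p : Fin r × Fin n, vv s u p ∈ B := fun p =>
      Subgroup.subset_closure ⟨p.1, p.2, rfl⟩
    have htor : IsMulTorsion (A ⧸ B) := by
      intro g
      obtain ⟨y, rfl⟩ := QuotientGroup.mk_surjective g
      by_contra hinf
      have hy : ∀ k : ℤ, y ^ k ∈ B → k = 0 := by
        intro k hk
        by_contra hk0
        apply hinf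
        rw [isOfFinOrder_iff_zpow_eq_one]
        refine ⟨k, hk0, ?_⟩
        rw [← QuotientGroup.mk_zpow, QuotientGroup.eq_one_iff]
        exact hk
      -- the linear map
      let ψ : (Fin r × Fin n → ℤ) →ₗ[ℤ] Additive A :=
        Fintype.linearCombination ℤ
          (fun p => if p = p0 then Additive.ofMul y else Additive.ofMul (vv s u p))
      have hψ : ∀ a, ψ a = a p0 • Additive.ofMul y + Ph s u (Function.update a p0 0) := by
        intro a
        show Fintype.linearCombination ℤ _ a = _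
        rw [Fintype.linearCombination_apply, Ph_apply, ← Finset.add_sum_erase _ _ (Finset.mem_univ p0),
          ← Finset.add_sum_erase _ _ (Finset.mem_univ p0), if_pos rfl, Function.update_self,
          zero_smul, zero_add]
        congr 1
        refine Finset.sum_congr rfl fun p hp => ?_
        have hp' : p ≠ p0 := Finset.ne_of_mem_erase hp
        rw [if_neg hp', Function.update_of_ne hp']
      have hPhB : ∀ a : Fin r × Fin n → ℤ, (Ph s u a).toMul ∈ B := by
        intro a
        rw [Ph_apply, toMul_sum]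
        refine Subgroup.prod_mem _ fun p _ => ?_
        rw [toMul_zsmul]
        exact Subgroup.zpow_mem _ (hvB p) _
      have hinj : Function.Injective ψ := by
        rw [← LinearMap.ker_eq_bot, LinearMap.ker_eq_bot']
        intro a ha
        rw [hψ] at ha
        have h1 : y ^ (a p0) ∈ B := by
          have h2 := congrArg Additive.toMul ha
          rw [toMul_add, toMul_zsmul, toMul_zero] at h2
          have h3 : y ^ (a p0) = ((Ph s u (Function.update a p0 0)).toMul)⁻¹ :=
            eq_inv_of_mul_eq_one_left h2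
          rw [h3]
          exact Subgroup.inv_mem _ (hPhB _)
        have h2 := hy _ h1
        rw [h2, zero_smul, zero_add] at ha
        have h3 := hzero _ ha (by rw [Function.update_self])
        funext p
        by_cases hp : p = p0
        · rw [hp, h2, Pi.zero_apply]
        · have := congrFun h3 p
          rwa [Function.update_of_ne hp] at this
      have := LinearMap.finrank_le_finrank_of_injective hinj
      rw [hcard] at this
      omega
    have : Finite (A ⧸ B) := CommGroup.finite_of_fg_isMulTorsion (A ⧸ B) htor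
    exact Subgroup.index_ne_zero_of_finite
  · set K := (dl s).ker with hK
    have hKfg : Group.FG K := by
      rw [Group.fg_iff_subgroup_fg, Subgroup.fg_iff_add_fg,
        ← AddSubgroup.toIntSubmodule_toAddSubgroup (Subgroup.toAddSubgroup K),
        ← Submodule.fg_iff_addSubgroup_fg]
      exact IsNoetherian.noetherian _
    have := hKfg
    have htor : IsMulTorsion (K ⧸ ((nm s n).range.subgroupOf K)) := by
      intro g
      obtain ⟨y, rfl⟩ := QuotientGroup.mk_surjective g
      rw [isOfFinOrder_iff_pow_eq_one]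
      refine ⟨n, hn, ?_⟩
      rw [← QuotientGroup.mk_pow, QuotientGroup.eq_one_iff, Subgroup.mem_subgroupOf]
      refine ⟨(y : A), ?_⟩
      have hy : s (y : A) = y := by
        have h1 : (y : A) ∈ (dl s).ker := y.2
        rw [MonoidHom.mem_ker] at h1
        exact div_eq_one.mp h1
      show ∏ i ∈ Finset.range n, (s^[i]) (y : A) = _
      have h2 : ∀ i, (s^[i]) (y : A) = y := fun i => Function.iterate_fixed hy i
      rw [Finset.prod_congr rfl (fun i _ => h2 i), Finset.prod_const, Finset.card_range]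
      rfl
    have : Finite (K ⧸ ((nm s n).range.subgroupOf K)) :=
      CommGroup.finite_of_fg_isMulTorsion _ htor
    exact Subgroup.index_ne_zero_of_finite

end Alg

section Orb

variable {F L : Type} [Field F] [Field L] [NumberField L] [Algebra F L]

theorem pow_mod (σ : L ≃ₐ[F] L) {n : ℕ} (hσ : σ ^ n = 1) (k : ℤ) (hn : 0 < n) :
    σ ^ k = σ ^ (k % (n : ℤ)).toNat := by
  have h1 : ((k % (n : ℤ)).toNat : ℤ) = k % n :=
    Int.toNat_of_nonneg (Int.emod_nonneg _ (by omega))
  rw [← zpow_natCast, h1]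
  conv_lhs => rw [← Int.mul_ediv_add_emod k n]
  rw [zpow_add, zpow_mul, zpow_natCast, hσ, one_zpow, one_mul]

/-- the orbits are regular -/
theorem orbits (σ : L ≃ₐ[F] L) {n : ℕ} (hn : 0 < n) (hσ : σ ^ n = 1)
    (hfree : ∀ (w : InfinitePlace L) (i : ℕ), σ ^ i • w = w → n ∣ i) :
    ∃ (r : ℕ) (w : Fin r → InfinitePlace L),
      Function.Bijective (fun p : Fin r × Fin n => σ ^ (p.2 : ℕ) • w p.1) := by
  classical
  let G := Subgroup.zpowers σ
  let Ω := MulAction.orbitRel.Quotient G (InfinitePlace L)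
  have : Fintype Ω := Quotient.fintype _
  let e : Fin (Fintype.card Ω) ≃ Ω := (Fintype.equivFin Ω).symm
  refine ⟨Fintype.card Ω, fun j => (e j).out, ?_, ?_⟩
  · rintro ⟨j, i⟩ ⟨j', i'⟩ h
    have h0 : σ ^ (i : ℕ) • (e j).out = σ ^ (i' : ℕ) • (e j').out := h
    have hmk : ∀ (k : ℕ) (w : InfinitePlace L),
        (Quotient.mk _ (σ ^ k • w) : Ω) = Quotient.mk _ w := by
      intro k w
      apply Quotient.sound
      show (MulAction.orbitRel G (InfinitePlace L)) (σ ^ k • w) w
      rw [MulAction.orbitRel_apply]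
      exact ⟨⟨σ ^ k, Subgroup.npow_mem_zpowers σ k⟩, rfl⟩
    have h1 : e j = e j' := by
      have h2 := congrArg (fun w => (Quotient.mk _ w : Ω)) h0
      simp only [hmk] at h2
      have h3 : ∀ x : Ω, (Quotient.mk _ x.out : Ω) = x := fun x => Quotient.out_eq x
      rw [h3, h3] at h2
      exact h2
    have h2 : j = j' := e.injective h1
    subst h2
    have hkey : ∀ (a b : ℕ), a ≤ b → b < n → σ ^ a • (e j).out = σ ^ b • (e j).out → a = b := by
      intro a b hab hb hh
      have h3 : σ ^ (b - a) • (e j).out = (e j).out := by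
        have h4 : σ ^ b = σ ^ a * σ ^ (b - a) := by
          rw [← pow_add]
          congr 1
          omega
        rw [h4, mul_smul] at hh
        exact (smul_left_cancel _ hh).symm
      have h5 := hfree _ _ h3
      have h6 := Nat.eq_zero_of_dvd_of_lt h5 (by omega)
      omega
    have h3 : (i : ℕ) = i' := by
      rcases le_total (i : ℕ) i' with h4 | h4
      · exact hkey _ _ h4 i'.2 h0
      · exact (hkey _ _ h4 i.2 h0.symm).symm
    rw [Fin.ext h3]
  · intro w
    have h1 : ∃ g : G, g • ((Quotient.mk _ w : Ω)).out = w := by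
      have h2 : (MulAction.orbitRel G (InfinitePlace L)) w ((Quotient.mk _ w : Ω)).out :=
        (MulAction.orbitRel G (InfinitePlace L)).symm (Quotient.mk_out w)
      rw [MulAction.orbitRel_apply] at h2
      exact h2
    obtain ⟨⟨g, hg⟩, hgw⟩ := h1
    obtain ⟨k, rfl⟩ := Subgroup.mem_zpowers_iff.mp hg
    have hlt : (k % (n : ℤ)).toNat < n := by
      have := Int.emod_lt_of_pos k (show (0 : ℤ) < n by omega)
      have h3 := Int.emod_nonneg k (show (n : ℤ) ≠ 0 by omega)
      omega
    refine ⟨(e.symm (Quotient.mk _ w), ⟨(k % (n : ℤ)).toNat, hlt⟩), ?_⟩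
    show σ ^ (k % (n : ℤ)).toNat • (e (e.symm (Quotient.mk _ w))).out = w
    rw [Equiv.apply_symm_apply, ← pow_mod σ hσ k hn]
    exact hgw

/-- the iterates -/
theorem coe_iter (σ : L ≃ₐ[F] L) (i : ℕ) (x : (𝓞 L)ˣ) :
    (((((su σ)^[i]) x : (𝓞 L)ˣ) : 𝓞 L) : L) = (σ ^ i) ((x : 𝓞 L) : L) := by
  induction i with
  | zero => rfl
  | succ i ih =>
    rw [Function.iterate_succ_apply', pow_succ', AlgEquiv.mul_apply, ← ih]
    rfl

theorem iter_n (σ : L ≃ₐ[F] L) {n : ℕ} (hσ : σ ^ n = 1) (x : (𝓞 L)ˣ) : ((su σ)^[n]) x = x := by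
  apply Units.ext
  apply RingOfIntegers.ext
  rw [coe_iter, hσ]
  rfl

/-- the logarithm at a place -/
noncomputable def lw (w : InfinitePlace L) : Additive (𝓞 L)ˣ →+ ℝ where
  toFun x := Real.log (w (((x.toMul : (𝓞 L)ˣ) : 𝓞 L) : L))
  map_zero' := by simp
  map_add' x y := by
    have hx : w (((x.toMul : (𝓞 L)ˣ) : 𝓞 L) : L) ≠ 0 := (Units.pos_at_place x.toMul w).ne'
    have hy : w (((y.toMul : (𝓞 L)ˣ) : 𝓞 L) : L) ≠ 0 := (Units.pos_at_place y.toMul w).ne'
    rw [← Real.log_mul hx hy, ← map_mul]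
    rfl

end Orb

end K40

open K40 in
theorem t_UNT : S_POS → S_UNT := by
  intro hPOS F L _ _ _ _ _ σ n hn hσ hfree
  classical
  obtain ⟨r, w, hbij⟩ := orbits σ hn hσ hfree
  let β : Fin r × Fin n ≃ InfinitePlace L := Equiv.ofBijective _ hbij
  have hβ : ∀ p, β p = σ ^ (p.2 : ℕ) • w p.1 := fun p => rfl
  choose u hu using fun j => Units.dirichletUnitTheorem.exists_unit L (w j)
  have hcardP : r * n = Fintype.card (InfinitePlace L) := by
    rw [← Fintype.card_congr β, Fintype.card_prod, Fintype.card_fin, Fintype.card_fin]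
  have hcpos : 0 < Fintype.card (InfinitePlace L) := Fintype.card_pos
  have hrk : Module.finrank ℤ (Additive (𝓞 L)ˣ) = Fintype.card (InfinitePlace L) - 1 :=
    Units.finrank_eq L
  let M : Fin r × Fin n → Fin r × Fin n → ℝ := fun p q =>
    (β q).mult * lw (β q) (Additive.ofMul (vv (su σ) u p))
  have hM1 : ∀ p q, p ≠ q → M p q < 0 := by
    intro p q hpq
    have h1 : (β q) ((((vv (su σ) u p : (𝓞 L)ˣ) : 𝓞 L) : L)) =
        ((σ ^ (p.2 : ℕ))⁻¹ • β q) (((u p.1 : (𝓞 L)ˣ) : 𝓞 L) : L) := by
      unfold vv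
      rw [coe_iter, InfinitePlace.smul_apply]
      rfl
    have h2 : (σ ^ (p.2 : ℕ))⁻¹ • β q ≠ w p.1 := by
      intro h3
      apply hpq
      apply β.injective
      rw [hβ p, ← h3, smul_inv_smul]
    have h3 := hu p.1 _ h2
    have h4 : (0 : ℝ) < (β q).mult := by
      exact_mod_cast InfinitePlace.mult_pos
    refine mul_neg_of_pos_of_neg h4 ?_
    show Real.log _ < 0
    rw [show ((Additive.ofMul (vv (su σ) u p)).toMul : (𝓞 L)ˣ) = vv (su σ) u p from rfl, h1]
    exact h3
  have hM2 : ∀ p, ∑ q, M p q = 0 := by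
    intro p
    rw [← Units.sum_mult_mul_log (vv (su σ) u p), ← Equiv.sum_comp β]
    rfl
  have hrel : ∀ a : Fin r × Fin n → ℤ, Ph (su σ) u a = 0 →
      a = 0 ∨ (∀ p, 0 < a p) ∨ (∀ p, a p < 0) := by
    intro a ha
    have h1 : ∀ q, ∑ p, ((a p : ℤ) : ℝ) * M p q = 0 := by
      intro q
      have h2 := congrArg (lw (β q)) ha
      rw [Ph_apply, map_sum, map_zero] at h2
      have h3 : ∑ p, ((a p : ℤ) : ℝ) * M p q =
          (β q).mult * ∑ p, lw (β q) (a p • Additive.ofMul (vv (su σ) u p)) := by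
        rw [Finset.mul_sum]
        refine Finset.sum_congr rfl fun p _ => ?_
        rw [map_zsmul, zsmul_eq_mul]
        show (a p : ℝ) * ((β q).mult * lw (β q) (Additive.ofMul (vv (su σ) u p))) = _
        ring
      rw [h3, h2, mul_zero]
    rcases (hPOS _ M hM1 hM2 (fun p => (a p : ℝ)) h1).1 with h | h | h
    · left
      funext p
      have h4 : ((a p : ℤ) : ℝ) = 0 := congrFun h p
      rw [Pi.zero_apply]
      exact_mod_cast h4
    · right
      left
      intro p
      exact_mod_cast h p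
    · right
      right
      intro p
      exact_mod_cast h p
  obtain ⟨c, hc⟩ := core (su σ) n r hn (iter_n σ hσ) u (by rw [hrk, hcardP]; omega)
    (by rw [hrk, hcardP]; omega) hrel
  exact ⟨r, u, c, hc⟩

end Pool.Agent.NH56.HU
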